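import Mathlib

/-!
# Commuting elements and metabelian images in free groups
-/

set_option autoImplicit false

open scoped commutatorElement

namespace Pool.Agent.H599R3

theorem free_of_comm_ne {I : Type} {i j : I} (h : i ≠ j) :
    (FreeGroup.of i : FreeGroup I) * FreeGroup.of j ≠ FreeGroup.of j * FreeGroup.of i := by
  classical
  intro h1
  let f : FreeGroup I →* Equiv.Perm (Fin 3) :=
    FreeGroup.lift (fun k => if k = i then Equiv.swap 0 1 else Equiv.swap 1 2)
  have h2 := congrArg f h1
  simp only [map_mul, f, FreeGroup.lift_apply_of, if_true, if_neg h.symm] at h2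
  revert h2
  decide

theorem free_of_metab_ne {I : Type} {i j : I} (h : i ≠ j)
    (hm : ∀ a b c d : FreeGroup I, ⁅⁅a, b⁆, ⁅c, d⁆⁆ = 1) : False := by
  classical
  let f : FreeGroup I →* Equiv.Perm (Fin 4) :=
    FreeGroup.lift (fun k => if k = i then Equiv.swap 0 1 else finRotate 4)
  have h2 := congrArg f (hm (FreeGroup.of i) (FreeGroup.of j) (FreeGroup.of i)
    (FreeGroup.of j * FreeGroup.of j))
  simp only [map_mul, map_commutatorElement, f, FreeGroup.lift_apply_of, if_true, if_neg h.symm,
    map_one] at h2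
  have h3 := congrArg (fun e : Equiv.Perm (Fin 4) => e 0) h2
  simp only [commutatorElement_def] at h3
  revert h3
  set_option maxRecDepth 20000 in
  decide

/-- a free group (abstractly) on a basis with at most one element is cyclic -/
theorem zpow_of_subsingleton {I : Type} [Subsingleton I] (a b : FreeGroup I) :
    ∃ z : FreeGroup I, ∃ m n : ℤ, a = z ^ m ∧ b = z ^ n := by
  obtain hI | ⟨⟨i⟩⟩ := isEmpty_or_nonempty I
  · exact ⟨1, 0, 0, Subsingleton.elim _ _, Subsingleton.elim _ _⟩
  · have h1 : ∀ a : FreeGroup I, ∃ m : ℤ, a = FreeGroup.of i ^ m := by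
      intro a
      have h2 : a ∈ Subgroup.closure (Set.range (FreeGroup.of : I → FreeGroup I)) := by
        rw [FreeGroup.closure_range_of]; trivial
      have h3 : Set.range (FreeGroup.of : I → FreeGroup I) = {FreeGroup.of i} := by
        ext x
        constructor
        · rintro ⟨k, rfl⟩
          rw [Subsingleton.elim k i]; rfl
        · rintro rfl
          exact ⟨i, rfl⟩
      rw [h3, ← Subgroup.zpowers_eq_closure, Subgroup.mem_zpowers_iff] at h2
      obtain ⟨m, hm⟩ := h2
      exact ⟨m, hm.symm⟩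
    obtain ⟨m, hm⟩ := h1 a
    obtain ⟨n, hn⟩ := h1 b
    exact ⟨FreeGroup.of i, m, n, hm, hn⟩

theorem comm_free {α : Type} (c d : FreeGroup α) (h : c * d = d * c) :
    ∃ z : FreeGroup α, ∃ m n : ℤ, c = z ^ m ∧ d = z ^ n := by
  let H : Subgroup (FreeGroup α) := Subgroup.closure {c, d}
  have hfree : IsFreeGroup H := inferInstance
  have hcomm : ∀ a b : H, a * b = b * a := by
    have := Subgroup.isMulCommutative_closure (k := ({c, d} : Set (FreeGroup α))) (by
      intro a ha b hb
      rcases ha with rfl | rfl <;> rcases hb with rfl | rfl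
      · rfl
      · exact h
      · exact h.symm
      · rfl)
    exact fun a b => this.is_comm.comm a b
  have hsub : Subsingleton (IsFreeGroup.Generators H) := by
    constructor
    intro i j
    by_contra hij
    apply free_of_comm_ne hij
    have h1 := hcomm (IsFreeGroup.of i) (IsFreeGroup.of j)
    have h2 := congrArg (IsFreeGroup.toFreeGroup H) h1
    simpa [IsFreeGroup.of] using h2
  let c' : H := ⟨c, Subgroup.subset_closure (by simp)⟩
  let d' : H := ⟨d, Subgroup.subset_closure (by simp)⟩
  obtain ⟨z, m, n, h1, h2⟩ := zpow_of_subsingleton (IsFreeGroup.toFreeGroup H c')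
    (IsFreeGroup.toFreeGroup H d')
  refine ⟨((IsFreeGroup.toFreeGroup H).symm z : H), m, n, ?_, ?_⟩
  · have h3 := congrArg (IsFreeGroup.toFreeGroup H).symm h1
    rw [MulEquiv.symm_apply_apply, map_zpow] at h3
    have h4 := congrArg Subtype.val h3
    exact h4
  · have h3 := congrArg (IsFreeGroup.toFreeGroup H).symm h2
    rw [MulEquiv.symm_apply_apply, map_zpow] at h3
    have h4 := congrArg Subtype.val h3
    exact h4

theorem metab_free {α : Type} {M : Type} [Group M] (f : M →* FreeGroup α)
    (hM : ∀ a b c d : M, ⁅⁅a, b⁆, ⁅c, d⁆⁆ = 1) (a b : M) : f ⁅a, b⁆ = 1 := by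
  let H : Subgroup (FreeGroup α) := f.range
  have hfree : IsFreeGroup H := inferInstance
  have hmet : ∀ a b c d : H, ⁅⁅a, b⁆, ⁅c, d⁆⁆ = 1 := by
    rintro ⟨_, a, rfl⟩ ⟨_, b, rfl⟩ ⟨_, c, rfl⟩ ⟨_, d, rfl⟩
    apply Subtype.ext
    show ⁅⁅f a, f b⁆, ⁅f c, f d⁆⁆ = 1
    rw [← map_commutatorElement, ← map_commutatorElement, ← map_commutatorElement, hM, map_one]
  have hsub : Subsingleton (IsFreeGroup.Generators H) := by
    constructor
    intro i j
    by_contra hij
    apply free_of_metab_ne hij
    intro a b c d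
    have h1 := hmet ((IsFreeGroup.toFreeGroup H).symm a) ((IsFreeGroup.toFreeGroup H).symm b)
      ((IsFreeGroup.toFreeGroup H).symm c) ((IsFreeGroup.toFreeGroup H).symm d)
    have h2 := congrArg (IsFreeGroup.toFreeGroup H) h1
    simpa [map_commutatorElement] using h2
  obtain ⟨z, m, n, h1, h2⟩ := zpow_of_subsingleton (IsFreeGroup.toFreeGroup H ⟨f a, a, rfl⟩)
    (IsFreeGroup.toFreeGroup H ⟨f b, b, rfl⟩)
  have h3 : (⟨f a, a, rfl⟩ : H) * ⟨f b, b, rfl⟩ = ⟨f b, b, rfl⟩ * ⟨f a, a, rfl⟩ := by
    apply (IsFreeGroup.toFreeGroup H).injective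
    rw [map_mul, map_mul, h1, h2, ← zpow_add, ← zpow_add, add_comm]
  have h4 : f a * f b = f b * f a := congrArg Subtype.val h3
  rw [map_commutatorElement, commutatorElement_def, h4]
  group

end Pool.Agent.H599R3
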