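import Pool.Agent.H599R3.Cu

/-!
# Word length against number of cells
-/

set_option autoImplicit false

namespace Pool.Agent.H599R3

/-- word length with respect to a generating set -/
noncomputable def wordLength {G : Type*} [Group G] (S : Set G) (g : G) : ℕ :=
  sInf {n : ℕ | ∃ l : List G, (∀ x ∈ l, x ∈ S ∨ x⁻¹ ∈ S) ∧ l.prod = g ∧ l.length = n}

section WL
variable {G : Type*} [Group G] {S : Set G}

theorem wordLength_le {g : G} {l : List G} (h : ∀ x ∈ l, x ∈ S ∨ x⁻¹ ∈ S) (hl : l.prod = g) :
    wordLength S g ≤ l.length := Nat.sInf_le ⟨l, h, hl, rfl⟩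

theorem exists_word (hS : Subgroup.closure S = ⊤) (g : G) :
    ∃ l : List G, (∀ x ∈ l, x ∈ S ∨ x⁻¹ ∈ S) ∧ l.prod = g ∧ l.length = wordLength S g := by
  have h1 : g ∈ (Subgroup.closure S).toSubmonoid := by rw [hS]; trivial
  rw [Subgroup.closure_toSubmonoid] at h1
  obtain ⟨l, h2, h3⟩ := Submonoid.exists_list_of_mem_closure h1
  exact Nat.sInf_mem (s := {n : ℕ | ∃ l : List G, (∀ x ∈ l, x ∈ S ∨ x⁻¹ ∈ S) ∧ l.prod = g ∧
    l.length = n}) ⟨_, l, h2, h3, rfl⟩

theorem wordLength_one : wordLength S (1 : G) = 0 := by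
  have := wordLength_le (S := S) (g := (1 : G)) (l := []) (by simp) rfl
  simpa using this

theorem wordLength_mul (hS : Subgroup.closure S = ⊤) (g h : G) :
    wordLength S (g * h) ≤ wordLength S g + wordLength S h := by
  obtain ⟨l, l1, l2, l3⟩ := exists_word hS g
  obtain ⟨m, m1, m2, m3⟩ := exists_word hS h
  rw [← l3, ← m3, ← List.length_append]
  apply wordLength_le
  · intro x hx
    rcases List.mem_append.1 hx with h | h
    · exact l1 x h
    · exact m1 x h
  · rw [List.prod_append, l2, m2]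

theorem wordLength_inv_le (hS : Subgroup.closure S = ⊤) (g : G) :
    wordLength S g⁻¹ ≤ wordLength S g := by
  obtain ⟨l, l1, l2, l3⟩ := exists_word hS g
  rw [← l3]
  have : (l.map (fun x => x⁻¹)).reverse.length = l.length := by simp
  rw [← this]
  apply wordLength_le
  · intro x hx
    rw [List.mem_reverse, List.mem_map] at hx
    obtain ⟨y, hy, rfl⟩ := hx
    rw [inv_inv]
    exact (l1 y hy).symm
  · rw [← l2, List.prod_inv_reverse]

theorem wordLength_inv (hS : Subgroup.closure S = ⊤) (g : G) :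
    wordLength S g⁻¹ = wordLength S g := by
  apply le_antisymm (wordLength_inv_le hS g)
  have := wordLength_inv_le hS g⁻¹
  rwa [inv_inv] at this

end WL

variable {A : Type} {R : Set (List A × List A)} {w : List A}

/-- all letters of the word have types in the given set -/
def AllL (R : Set (List A × List A)) (Q : Set (List A × A × List A)) (c : List A) : Prop :=
  ∀ (m₁ : List A) (a : A) (m₂ : List A), c = m₁ ++ a :: m₂ → (rep R m₁, a, rep R m₂) ∈ Q

theorem split_append {x z m₁ m₂ : List A} {a : A} (h : x ++ z = m₁ ++ a :: m₂) :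
    (∃ x₂, x = m₁ ++ a :: x₂ ∧ m₂ = x₂ ++ z) ∨ (∃ z₁, m₁ = x ++ z₁ ∧ z = z₁ ++ a :: m₂) := by
  rcases List.append_eq_append_iff.1 h with ⟨u, h1, h2⟩ | ⟨u, h1, h2⟩
  · exact Or.inr ⟨u, h1, h2⟩
  · rcases u with _ | ⟨b, u⟩
    · right
      refine ⟨[], ?_, ?_⟩
      · simpa using h1.symm
      · simpa using h2.symm
    · left
      simp only [List.cons_append, List.cons.injEq] at h2
      obtain ⟨rfl, h3⟩ := h2
      exact ⟨u, h1, h3⟩

/-- the set of types of letters produced by cells of given types -/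
def outTypes (R : Set (List A × List A)) (Th : Set (St A)) : Set (List A × A × List A) :=
  {q | ∃ t ∈ Th, ∃ (v₁ : List A) (a : A) (v₂ : List A), out t.2.1 t.2.2.2 = v₁ ++ a :: v₂ ∧
    q = (rep R (t.1 ++ v₁), a, rep R (v₂ ++ t.2.2.1))}

/-- the set of types of the letters of a word -/
def wordTypes (R : Set (List A × List A)) (c : List A) : Set (List A × A × List A) :=
  {q | ∃ (v₁ : List A) (a : A) (v₂ : List A), c = v₁ ++ a :: v₂ ∧ q = (rep R v₁, a, rep R v₂)}

theorem finite_splits (c : List A) : {t : List A × A × List A | c = t.1 ++ t.2.1 :: t.2.2}.Finite := by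
  apply Set.Finite.of_finite_image (f := fun t => t.1.length)
  · apply (Set.finite_Iio c.length).subset
    rintro n ⟨t, ht, rfl⟩
    simp only [Set.mem_ofPred_eq] at ht
    rw [ht]
    simp
  · rintro ⟨m₁, a, m₂⟩ h1 ⟨n₁, b, n₂⟩ h2 h3
    simp only [Set.mem_ofPred_eq] at h1 h2 h3
    rw [h1] at h2
    obtain ⟨rfl, h4⟩ := List.append_inj h2 h3
    simp only [List.cons.injEq] at h4
    obtain ⟨rfl, rfl⟩ := h4
    rfl

theorem finite_wordTypes (c : List A) : (wordTypes R c).Finite := by
  apply ((finite_splits c).image (fun t => (rep R t.1, t.2.1, rep R t.2.2))).subset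
  rintro q ⟨v₁, a, v₂, h, rfl⟩
  exact ⟨(v₁, a, v₂), h, rfl⟩

theorem finite_outTypes {Th : Set (St A)} (h : Th.Finite) : (outTypes R Th).Finite := by
  have h1 : (⋃ t ∈ Th, (fun q : List A × A × List A => (rep R (t.1 ++ q.1), q.2.1, rep R (q.2.2 ++ t.2.2.1))) ''
      {q : List A × A × List A | out t.2.1 t.2.2.2 = q.1 ++ q.2.1 :: q.2.2}).Finite := by
    apply h.biUnion
    intro t _
    exact (finite_splits _).image _
  apply h1.subset
  rintro q ⟨t, ht, v₁, a, v₂, h2, rfl⟩
  simp only [Set.mem_iUnion]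
  exact ⟨t, ht, (v₁, a, v₂), h2, rfl⟩

theorem allL_step {Q : Set (List A × A × List A)} {Th : Set (St A)} (hQ : outTypes R Th ⊆ Q)
    {s : St A} (hs : s.2.1 ∈ R) (ht : typ R s ∈ Th) (h : AllL R Q (src s)) : AllL R Q (tgt s) := by
  obtain ⟨x, r, y, b⟩ := s
  rw [src_def] at h
  rw [tgt_def]
  simp only at h hs ⊢
  have e : Eqv R (inn r b) (out r b) := by
    have := eqv_cell hs b [] []
    simpa using this
  intro m₁ a m₂ h1
  rw [List.append_assoc] at h1
  rcases split_append h1 with ⟨x₂, rfl, rfl⟩ | ⟨z₁, rfl, h2⟩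
  · have := h m₁ a (x₂ ++ inn r b ++ y) (by simp)
    rw [rep_eq (e.ctx x₂ y)] at this
    simpa using this
  · rcases split_append h2 with ⟨v₂, h3, rfl⟩ | ⟨y₁, rfl, rfl⟩
    · apply hQ
      refine ⟨_, ht, z₁, a, v₂, h3, ?_⟩
      simp only [typ]
      rw [rep_append_left, rep_append_right]
    · have := h (x ++ inn r b ++ y₁) a m₂ (by simp)
      rw [rep_eq (e.ctx x y₁)] at this
      simpa using this

section Bound

variable {L : D R w → ℕ} (L1 : L 1 = 0) (Lm : ∀ g h, L (g * h) ≤ L g + L h) (Li : ∀ g, L g⁻¹ = L g)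
variable {B : ℕ} {Q : Set (List A × A × List A)}
  (hB : ∀ q ∈ Q, L (kap R w q.1 q.2.1 q.2.2) ≤ B)

include L1 Lm hB in
theorem move_cost : ∀ (u m₁ m₂ : List A), Eqv R w (m₁ ++ u ++ m₂) → AllL R Q (m₁ ++ u ++ m₂) →
    L (T R w m₁ (u ++ m₂) * (T R w (m₁ ++ u) m₂)⁻¹) ≤ B * u.length := by
  intro u
  induction u with
  | nil => intro m₁ m₂ _ _; simp [L1]
  | cons a u ih =>
    intro m₁ m₂ h1 h2
    have h3 := T_move (R := R) (w := w) (m₁ := m₁) (m₂ := u ++ m₂) (a := a) (by simpa using h1)
    have h4 := ih (m₁ ++ [a]) m₂ (by simpa using h1) (by simpa using h2)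
    have h5 := hB _ (h2 m₁ a (u ++ m₂) (by simp))
    have e : T R w m₁ (a :: u ++ m₂) * (T R w (m₁ ++ a :: u) m₂)⁻¹ =
        (T R w m₁ (a :: (u ++ m₂)) * (T R w (m₁ ++ [a]) (u ++ m₂))⁻¹) *
          (T R w (m₁ ++ [a]) (u ++ m₂) * (T R w (m₁ ++ [a] ++ u) m₂)⁻¹) := by
      simp
    rw [e, h3]
    refine (Lm _ _).trans ?_
    rw [List.length_cons, Nat.mul_succ]
    simp only at h5
    omega

variable {Th : Set (St A)} (hQ : outTypes R Th ⊆ Q) (hT : ∀ t ∈ Th, L (chi R w t) ≤ B)
  {K : ℕ} (hK : ∀ t ∈ Th, (out t.2.1 t.2.2.2).length ≤ K)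
  (hR : ∀ r ∈ R, r.1 ≠ [] ∧ r.2 ≠ [])

include L1 Lm Li hB hQ hT hK hR in
theorem cursor_bound : ∀ (l : List (St A)) (m₁ m₂ : List A), Walk R (m₁ ++ m₂) w l →
    Eqv R w (m₁ ++ m₂) → AllL R Q (m₁ ++ m₂) → (∀ t ∈ l, typ R t ∈ Th) →
    Nf.Nrm pp iv (l.map pos) → (∀ t ∈ l.head?, m₁.length < t.1.length + (inn t.2.1 t.2.2.2).length) →
    L (T R w m₁ m₂ * val R w l * (T R w [] w)⁻¹) ≤
      B * ((2 * K + 1) * l.length + 2 * m₂.length + m₁.length) := by
  intro l
  induction l with
  | nil =>
    intro m₁ m₂ h1 h2 h3 _ _ _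
    have h1' : m₁ ++ m₂ = w := h1
    subst h1'
    have h4 := move_cost L1 Lm hB m₁ [] m₂ (by simpa using h2) (by simpa using h3)
    have e : T R (m₁ ++ m₂) m₁ m₂ * val R (m₁ ++ m₂) [] * (T R (m₁ ++ m₂) [] (m₁ ++ m₂))⁻¹ =
        (T R (m₁ ++ m₂) [] (m₁ ++ m₂) * (T R (m₁ ++ m₂) ([] ++ m₁) m₂)⁻¹)⁻¹ := by
      simp
    rw [e, Li]
    refine h4.trans ?_
    apply Nat.mul_le_mul_left
    omega
  | cons s l ih =>
    intro m₁ m₂ h1 h2 h3 h4 h5 h6
    obtain ⟨a1, a2, a3⟩ := h1
    have h7 : typ R s ∈ Th := h4 s (by simp)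
    have h8 := hT _ h7
    have h9 := hK _ h7
    have h10 := h6 s (by simp)
    have h11 : AllL R Q (src s) := by rw [a2]; exact h3
    have h12 := allL_step hQ a1 h7 h11
    have h13 : Eqv R w (src s) := by rw [a2]; exact h2
    have h14 : Eqv R w (tgt s) := h13.trans (eqv_step a1)
    obtain ⟨x, r, y, b⟩ := s
    simp only [typ] at h9
    have hcell := T_cell (R := R) (w := w) (m₁ := x) (m₃ := y) (r := r) (b := b) a1
      (by simpa [src_def] using h13)
    rw [src_def] at a2
    simp only at a2 h10 a1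
    rw [tgt_def] at a3 h12 h14
    simp only at a3 h12 h14
    rw [List.append_assoc] at a3 h12 h14
    -- induction hypothesis at the position of the cell
    have h15 := ih x (out r b ++ y) a3 h14 h12 (fun t ht => h4 t (List.mem_cons_of_mem _ ht)) h5.2 (by
      intro t ht
      rcases l with _ | ⟨t', l⟩
      · simp at ht
      · simp at ht
        subst ht
        have := h5.1
        simp only [Nf.Ok, List.map_cons, pos] at this
        have hmem : t'.2.1 ∈ R := a3.1
        rw [pp_of hR hmem] at this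
        exact this.1)
    have e1 : T R w m₁ m₂ * val R w ((x, r, y, b) :: l) * (T R w [] w)⁻¹ =
        (T R w m₁ m₂ * (T R w x (inn r b ++ y))⁻¹) *
        ((T R w x (inn r b ++ y) * ep R w (x, r, y, b) * (T R w x (out r b ++ y))⁻¹) *
         (T R w x (out r b ++ y) * val R w l * (T R w [] w)⁻¹)) := by
      rw [val_cons]
      group
    rw [e1, hcell]
    have e2 := Lm (T R w m₁ m₂ * (T R w x (inn r b ++ y))⁻¹)
      (chi R w (typ R (x, r, y, b)) * (T R w x (out r b ++ y) * val R w l * (T R w [] w)⁻¹))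
    have e3 := Lm (chi R w (typ R (x, r, y, b))) (T R w x (out r b ++ y) * val R w l * (T R w [] w)⁻¹)
    rw [List.append_assoc] at a2
    rcases Nat.lt_or_ge x.length m₁.length with hlt | hge
    · -- the cursor moves to the left
      obtain ⟨m', rfl⟩ : ∃ m', m₁ = x ++ m' := by
        rcases List.append_eq_append_iff.1 a2 with ⟨u, hu, _⟩ | ⟨u, hu, _⟩
        · exact ⟨u, hu⟩
        · have := congrArg List.length hu
          simp at this
          omega
      rw [List.append_assoc] at a2
      have a4 : inn r b ++ y = m' ++ m₂ := List.append_cancel_left a2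
      have h16 := move_cost L1 Lm hB m' x m₂ h2 h3
      have e4 : T R w (x ++ m') m₂ * (T R w x (inn r b ++ y))⁻¹ =
          (T R w x (m' ++ m₂) * (T R w (x ++ m') m₂)⁻¹)⁻¹ := by
        rw [a4]; simp
      rw [e4, Li] at e2
      have h17 := congrArg List.length a4
      simp only [List.length_append, List.length_cons] at h17 h15 h10 h16 ⊢
      rw [e4]
      have hb1 : B * m'.length + (B + B * ((2 * K + 1) * l.length + 2 * ((out r b).length + y.length) + x.length))
          ≤ B * ((2 * K + 1) * (l.length + 1) + 2 * m₂.length + (x.length + m'.length)) := by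
        have : m'.length + (1 + ((2 * K + 1) * l.length + 2 * ((out r b).length + y.length) + x.length))
            ≤ (2 * K + 1) * (l.length + 1) + 2 * m₂.length + (x.length + m'.length) := by
          rw [Nat.mul_succ]
          omega
        calc _ = B * (m'.length + (1 + ((2 * K + 1) * l.length + 2 * ((out r b).length + y.length) + x.length))) := by ring
          _ ≤ _ := Nat.mul_le_mul_left _ this
      omega
    · -- the cursor moves to the right
      obtain ⟨m', rfl⟩ : ∃ m', x = m₁ ++ m' := by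
        rcases List.append_eq_append_iff.1 a2 with ⟨u, hu, _⟩ | ⟨u, hu, _⟩
        · have := congrArg List.length hu
          simp at this
          have hu' : u = [] := List.eq_nil_of_length_eq_zero (by omega)
          subst hu'
          exact ⟨[], by simpa using hu.symm⟩
        · exact ⟨u, hu⟩
      rw [List.append_assoc] at a2
      have a4 : m' ++ (inn r b ++ y) = m₂ := List.append_cancel_left a2
      subst a4
      have h16 := move_cost L1 Lm hB m' m₁ (inn r b ++ y) (by simpa using h2) (by simpa using h3)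
      simp only [List.length_append, List.length_cons] at h15 h10 h16 ⊢
      have hb1 : B * m'.length + (B + B * ((2 * K + 1) * l.length + 2 * ((out r b).length + y.length) + (m₁.length + m'.length)))
          ≤ B * ((2 * K + 1) * (l.length + 1) + 2 * (m'.length + ((inn r b).length + y.length)) + m₁.length) := by
        have : m'.length + (1 + ((2 * K + 1) * l.length + 2 * ((out r b).length + y.length) + (m₁.length + m'.length)))
            ≤ (2 * K + 1) * (l.length + 1) + 2 * (m'.length + ((inn r b).length + y.length)) + m₁.length := by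
          rw [Nat.mul_succ]
          omega
        calc _ = B * (m'.length + (1 + ((2 * K + 1) * l.length + 2 * ((out r b).length + y.length) + (m₁.length + m'.length)))) := by ring
          _ ≤ _ := Nat.mul_le_mul_left _ this
      omega

end Bound

end Pool.Agent.H599R3
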