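import Pool.Agent.H599R3.Rd

/-!
# Moving a cursor along words: finitely many elementary costs
-/

set_option autoImplicit false

namespace Pool.Agent.H599R3

variable {A : Type} {R : Set (List A × List A)} {w : List A}

/-- value of a list of steps put in a context -/
noncomputable def ev (R : Set (List A × List A)) (w x y : List A) (l : List (St A)) : D R w :=
  val R w (l.map (ctx x y))

@[simp] theorem ev_nil (x y : List A) : ev R w x y [] = 1 := rfl
@[simp] theorem ev_append (x y : List A) (l m : List (St A)) :
    ev R w x y (l ++ m) = ev R w x y l * ev R w x y m := by simp [ev]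
theorem ev_ctx (x y x' y' : List A) (l : List (St A)) :
    ev R w x y (l.map (ctx x' y')) = ev R w (x ++ x') (y' ++ y) l := by
  unfold ev
  rw [List.map_map]
  congr 2
  funext s
  simp [ctx]

theorem ep_comm {a a' b b' x y z : List A} {s t : St A} (hs : s.2.1 ∈ R) (ht : t.2.1 ∈ R)
    (e1 : src s = a) (e2 : tgt s = a') (e3 : src t = b) (e4 : tgt t = b')
    (hc : Eqv R w (x ++ a ++ y ++ b ++ z)) :
    ep R w (ctx x (y ++ b ++ z) s) * ep R w (ctx (x ++ a' ++ y) z t) =
      ep R w (ctx (x ++ a ++ y) z t) * ep R w (ctx x (y ++ b' ++ z) s) := by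
  subst e1; subst e2; subst e3; subst e4
  obtain ⟨p, r, q, c⟩ := s
  obtain ⟨p', r', q', c'⟩ := t
  have := ep_flip (w := w) (x := x ++ p) (y := q ++ y ++ p') (z := q' ++ z) hs ht c c'
    (by simpa [src_def] using hc)
  simp only [ctx, src_def, tgt_def, List.append_assoc] at this ⊢
  exact this

theorem ep_val_comm {a a' b b' x y z : List A} {s : St A} {m : List (St A)} (hs : s.2.1 ∈ R)
    (e1 : src s = a) (e2 : tgt s = a') (hm : Walk R b b' m)
    (hc : Eqv R w (x ++ a ++ y ++ b ++ z)) :
    ep R w (ctx x (y ++ b ++ z) s) * ev R w (x ++ a' ++ y) z m =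
      ev R w (x ++ a ++ y) z m * ep R w (ctx x (y ++ b' ++ z) s) := by
  induction m generalizing b with
  | nil =>
    obtain rfl : b = b' := hm
    simp
  | cons t m ih =>
    obtain ⟨h1, h2, h3⟩ := hm
    subst h2
    have h4 : Eqv R w (x ++ a ++ y ++ tgt t ++ z) :=
      hc.trans ((eqv_step h1).ctx (x ++ a ++ y) z)
    have e : ∀ (p q : List A), ev R w p q (t :: m) = ep R w (ctx p q t) * ev R w p q m := by
      intro p q; simp [ev]
    rw [e, e, ← mul_assoc, ep_comm hs h1 e1 e2 rfl rfl hc, mul_assoc, ih h3 h4, mul_assoc]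

/-- horizontal composition: the order does not matter -/
theorem val_comm {a a' b b' : List A} {l m : List (St A)} (hl : Walk R a a' l)
    (hm : Walk R b b' m) (x y z : List A) (hc : Eqv R w (x ++ a ++ y ++ b ++ z)) :
    ev R w x (y ++ b ++ z) l * ev R w (x ++ a' ++ y) z m =
      ev R w (x ++ a ++ y) z m * ev R w x (y ++ b' ++ z) l := by
  induction l generalizing a with
  | nil =>
    obtain rfl : a = a' := hl
    simp
  | cons s l ih =>
    obtain ⟨h1, h2, h3⟩ := hl
    subst h2
    have h4 : Eqv R w (x ++ tgt s ++ y ++ b ++ z) := by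
      have := hc.trans (Eqv.trans ?_ ((eqv_step h1).ctx x (y ++ b ++ z)))
      · simpa using this
      · simp only [List.append_assoc]; exact Eqv.refl _
    have e : ∀ (p q : List A), ev R w p q (s :: l) = ep R w (ctx p q s) * ev R w p q l := by
      intro p q; simp [ev]
    rw [e, e, mul_assoc, ih h3 h4, ← mul_assoc, ep_val_comm h1 rfl rfl hm hc, mul_assoc]

/-- the case without outer contexts -/
theorem val_comm' {a a' b b' : List A} {l m : List (St A)} (hl : Walk R a a' l)
    (hm : Walk R b b' m) (hc : Eqv R w (a ++ b)) :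
    ev R w [] b l * ev R w a' [] m = ev R w a [] m * ev R w [] b' l := by
  have := val_comm hl hm [] [] [] (w := w) (by simpa using hc)
  simpa using this

open Classical in
/-- a chosen walk -/
noncomputable def pth (R : Set (List A × List A)) (a b : List A) : List (St A) :=
  if h : Eqv R a b then h.choose else []

theorem pth_walk {a b : List A} (h : Eqv R a b) : Walk R a b (pth R a b) := by
  unfold pth
  rw [dif_pos h]
  exact h.choose_spec

/-- standard diagram from the representative to a word, built from the left -/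
noncomputable def Dr (R : Set (List A × List A)) : List A → List (St A)
  | [] => pth R (rep R []) []
  | a :: m => pth R (rep R (a :: m)) (a :: rep R m) ++ (Dr R m).map (ctx [a] [])

/-- auxiliary: standard diagram built from the right, on reversed words -/
noncomputable def DlR (R : Set (List A × List A)) : List A → List (St A)
  | [] => pth R (rep R []) []
  | a :: m => pth R (rep R (m.reverse ++ [a])) (rep R m.reverse ++ [a]) ++ (DlR R m).map (ctx [] [a])

/-- standard diagram from the representative to a word, built from the right -/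
noncomputable def Dl (R : Set (List A × List A)) (m : List A) : List (St A) := DlR R m.reverse

theorem Dl_snoc (m : List A) (a : A) :
    Dl R (m ++ [a]) = pth R (rep R (m ++ [a])) (rep R m ++ [a]) ++ (Dl R m).map (ctx [] [a]) := by
  simp [Dl, DlR]

theorem rep_cons (a : A) (m : List A) : Eqv R (rep R (a :: m)) (a :: rep R m) := by
  refine (rep_eqv _).trans ?_
  have := (rep_eqv (R := R) m).symm.ctx [a] []
  simpa using this

theorem rep_snoc (a : A) (m : List A) : Eqv R (rep R (m ++ [a])) (rep R m ++ [a]) := by
  refine (rep_eqv _).trans ?_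
  have := (rep_eqv (R := R) m).symm.ctx [] [a]
  simpa using this

theorem Dr_walk (m : List A) : Walk R (rep R m) m (Dr R m) := by
  induction m with
  | nil => exact pth_walk (rep_eqv _)
  | cons a m ih =>
    refine (pth_walk (rep_cons a m)).append ?_
    have := ih.ctx [a] []
    simpa using this

theorem Dl_walk (m : List A) : Walk R (rep R m) m (Dl R m) := by
  induction m using List.reverseRecOn with
  | nil => exact pth_walk (rep_eqv _)
  | append_singleton m a ih =>
    rw [Dl_snoc]
    refine (pth_walk (rep_snoc a m)).append ?_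
    have := ih.ctx [] [a]
    simpa using this

/-- diagrams from the representative of `u ++ q` to `u ++ q`, `q` a representative -/
noncomputable def Lam (R : Set (List A × List A)) : List A → List A → List (St A)
  | [], _ => []
  | a :: u, q => pth R (rep R (a :: (u ++ q))) (a :: rep R (u ++ q)) ++ (Lam R u q).map (ctx [a] [])

theorem rep_append_right (u m : List A) : rep R (u ++ rep R m) = rep R (u ++ m) := by
  apply rep_eq
  have := (rep_eqv (R := R) m).ctx u []
  simpa using this

theorem rep_append_left (u m : List A) : rep R (rep R m ++ u) = rep R (m ++ u) := by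
  apply rep_eq
  have := (rep_eqv (R := R) m).ctx [] u
  simpa using this

theorem Dr_append (u m : List A) :
    Dr R (u ++ m) = Lam R u (rep R m) ++ (Dr R m).map (ctx u []) := by
  induction u with
  | nil =>
    simp only [List.nil_append, Lam]
    conv_lhs => rw [← List.map_id (Dr R m)]
    apply List.map_congr_left
    intro s _
    simp [ctx]
  | cons a u ih =>
    rw [List.cons_append, Dr, ih, Lam, List.map_append, List.map_map]
    have e1 : rep R (a :: (u ++ rep R m)) = rep R (a :: (u ++ m)) := rep_append_right (a :: u) m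
    have e2 : rep R (u ++ rep R m) = rep R (u ++ m) := rep_append_right u m
    rw [e1, e2, List.append_assoc]
    congr 2
    apply List.map_congr_left
    intro s _
    simp [ctx]

theorem Lam_walk (u m : List A) : Walk R (rep R (u ++ m)) (u ++ rep R m) (Lam R u (rep R m)) := by
  induction u with
  | nil => exact rfl
  | cons a u ih =>
    rw [Lam]
    have e1 : rep R (a :: (u ++ rep R m)) = rep R (a :: (u ++ m)) := rep_append_right (a :: u) m
    have e2 : rep R (u ++ rep R m) = rep R (u ++ m) := rep_append_right u m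
    rw [e1, e2]
    refine (pth_walk (rep_cons a (u ++ m))).append ?_
    have := ih.ctx [a] []
    simpa using this

/-- the state of the word `m₁ m₂` with the cursor between `m₁` and `m₂` -/
noncomputable def T (R : Set (List A × List A)) (w m₁ m₂ : List A) : D R w :=
  ev R w [] (rep R m₂) (Dl R m₁) * ev R w m₁ [] (Dr R m₂)

/-- cost of moving the cursor -/
noncomputable def kap (R : Set (List A × List A)) (w p : List A) (a : A) (q : List A) : D R w :=
  ev R w p [] (pth R (rep R (a :: q)) (a :: q)) *
    (ev R w [] q (pth R (rep R (p ++ [a])) (p ++ [a])))⁻¹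

theorem eqv_rep_append {m₁ m₂ : List A} : Eqv R (m₁ ++ m₂) (rep R m₁ ++ rep R m₂) := by
  have h1 := (rep_eqv (R := R) m₁).symm.ctx [] m₂
  have h2 := (rep_eqv (R := R) m₂).symm.ctx (rep R m₁) []
  simp only [List.nil_append, List.append_nil] at h1 h2
  exact h1.trans h2

theorem T_move {m₁ m₂ : List A} {a : A} (hc : Eqv R w (m₁ ++ a :: m₂)) :
    T R w m₁ (a :: m₂) * (T R w (m₁ ++ [a]) m₂)⁻¹ = kap R w (rep R m₁) a (rep R m₂) := by
  have e1 : rep R (a :: rep R m₂) = rep R (a :: m₂) := rep_append_right [a] m₂
  have e2 : rep R (rep R m₁ ++ [a]) = rep R (m₁ ++ [a]) := rep_append_left [a] m₁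
  unfold T kap
  rw [e1, e2, Dl_snoc, Dr, ev_append, ev_append, ev_ctx, ev_ctx, ← mul_assoc]
  have h1 := val_comm' (w := w) (Dl_walk m₁) (pth_walk (rep_cons (R := R) a m₂))
    (hc.trans eqv_rep_append)
  rw [h1]
  simp only [List.append_nil, List.singleton_append, mul_inv_rev]
  group

/-- the closed cell -/
noncomputable def Qc (R : Set (List A × List A)) (r : List A × List A) (b : Bool) (q : List A) :
    List (St A) :=
  Lam R (inn r b) q ++ [([], r, q, b)] ++ rv (Lam R (out r b) q)

/-- cost of a cell -/
noncomputable def chi (R : Set (List A × List A)) (w : List A) (t : St A) : D R w :=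
  ev R w t.1 [] (Qc R t.2.1 t.2.2.2 t.2.2.1)

theorem rv_map_ctx (x y : List A) (l : List (St A)) : (rv l).map (ctx x y) = rv (l.map (ctx x y)) := by
  simp only [rv, List.map_reverse, List.map_map]
  congr 1

theorem ev_rv {a b x y : List A} {l : List (St A)} (h : Walk R a b l) (hc : Eqv R w (x ++ a ++ y)) :
    ev R w x y (rv l) = (ev R w x y l)⁻¹ := by
  unfold ev
  rw [rv_map_ctx]
  exact val_rv (h.ctx x y) hc

theorem T_cell {m₁ m₃ : List A} {r : List A × List A} {b : Bool} (hr : r ∈ R)
    (hc : Eqv R w (m₁ ++ inn r b ++ m₃)) :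
    T R w m₁ (inn r b ++ m₃) * ep R w (m₁, r, m₃, b) * (T R w m₁ (out r b ++ m₃))⁻¹ =
      chi R w (typ R (m₁, r, m₃, b)) := by
  have hq : rep R (inn r b ++ m₃) = rep R (out r b ++ m₃) := by
    apply rep_eq
    have := eqv_cell hr b [] m₃
    simpa using this
  have hcq : Eqv R w (m₁ ++ rep R (inn r b ++ m₃)) := by
    refine hc.trans ?_
    have := (rep_eqv (R := R) (inn r b ++ m₃)).symm.ctx m₁ []
    simpa using this
  have hcc : Eqv R w (rep R m₁ ++ rep R (inn r b ++ m₃)) := by
    refine hc.trans ?_
    rw [List.append_assoc]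
    exact eqv_rep_append
  have hc2 : Eqv R w (m₁ ++ rep R (out r b ++ m₃)) := by rw [← hq]; exact hcq
  -- walk of the closed cell
  have hs : Walk R (inn r b ++ rep R m₃) (out r b ++ rep R m₃) [([], r, rep R m₃, b)] :=
    ⟨hr, by simp [src_def], by simp [tgt_def]⟩
  have hQ : Walk R (rep R (inn r b ++ m₃)) (rep R (inn r b ++ m₃)) (Qc R r b (rep R m₃)) := by
    have h2 := (Lam_walk (R := R) (out r b) m₃).rv
    rw [← hq] at h2
    exact ((Lam_walk (inn r b) m₃).append hs).append h2
  have h1 := val_comm' (w := w) (Dl_walk m₁) hQ hcc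
  -- exchange of the cell with the right part
  have h0 : Walk R (inn r b) (out r b) [([], r, [], b)] := ⟨hr, by simp [src_def], by simp [tgt_def]⟩
  have h2 := val_comm (w := w) h0 (Dr_walk (R := R) m₃) m₁ [] [] (by
    refine hc.trans ?_
    have := (rep_eqv (R := R) m₃).symm.ctx (m₁ ++ inn r b) []
    simpa using this)
  have h3 : ev R w m₁ ([] ++ rep R m₃ ++ []) [([], r, [], b)] = ep R w (m₁, r, rep R m₃, b) := by
    simp [ev, ctx]
  have h4 : ev R w m₁ ([] ++ m₃ ++ []) [([], r, [], b)] = ep R w (m₁, r, m₃, b) := by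
    simp [ev, ctx]
  rw [h3, h4] at h2
  simp only [List.append_nil] at h2
  have h5 : ev R w m₁ [] (rv (Lam R (out r b) (rep R m₃))) =
      (ev R w m₁ [] (Lam R (out r b) (rep R m₃)))⁻¹ :=
    ev_rv (Lam_walk (R := R) (out r b) m₃) (by simpa using hc2)
  have h6 : ev R w m₁ [] [([], r, rep R m₃, b)] = ep R w (m₁, r, rep R m₃, b) := by
    simp [ev, ctx]
  have h7 : ev R w m₁ [] (Qc R r b (rep R m₃)) = ev R w m₁ [] (Lam R (inn r b) (rep R m₃)) *
      ep R w (m₁, r, rep R m₃, b) * (ev R w m₁ [] (Lam R (out r b) (rep R m₃)))⁻¹ := by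
    unfold Qc
    rw [ev_append, ev_append, h5, h6]
  have h8 : chi R w (typ R (m₁, r, m₃, b)) = ev R w [] (rep R (inn r b ++ m₃)) (Dl R m₁) *
      ev R w m₁ [] (Qc R r b (rep R m₃)) * (ev R w [] (rep R (inn r b ++ m₃)) (Dl R m₁))⁻¹ := by
    rw [h1, mul_inv_cancel_right]
    rfl
  rw [h8, h7]
  unfold T
  rw [Dr_append, Dr_append, ev_append, ev_append, ev_ctx, ev_ctx, ← hq]
  simp only [List.append_nil]
  have h9 : ep R w (m₁, r, m₃, b) = (ev R w (m₁ ++ inn r b) [] (Dr R m₃))⁻¹ *
      (ep R w (m₁, r, rep R m₃, b) * ev R w (m₁ ++ out r b) [] (Dr R m₃)) := by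
    rw [h2, inv_mul_cancel_left]
  rw [h9]
  group

end Pool.Agent.H599R3
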