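import Mathlib

/-!
# Diagram groups as loops in the Squier complex modulo homotopy

Steps are quadruples `(x, (u, v), y, b)`: replace `u` by `v` (if `b`) or `v` by `u` (if not `b`)
between `x` and `y`.
-/

set_option autoImplicit false

namespace Pool.Agent.H599R3

variable {A : Type}

/-- steps -/
abbrev St (A : Type) := List A × (List A × List A) × List A × Bool

/-- source -/
def src (s : St A) : List A := s.1 ++ (if s.2.2.2 then s.2.1.1 else s.2.1.2) ++ s.2.2.1
/-- target -/
def tgt (s : St A) : List A := s.1 ++ (if s.2.2.2 then s.2.1.2 else s.2.1.1) ++ s.2.2.1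
/-- inverse step -/
def bar (s : St A) : St A := (s.1, s.2.1, s.2.2.1, !s.2.2.2)

theorem src_bar (s : St A) : src (bar s) = tgt s := by
  obtain ⟨x, ⟨u, v⟩, y, b⟩ := s
  cases b <;> simp [src, tgt, bar]

theorem tgt_bar (s : St A) : tgt (bar s) = src s := by
  obtain ⟨x, ⟨u, v⟩, y, b⟩ := s
  cases b <;> simp [src, tgt, bar]

theorem bar_bar (s : St A) : bar (bar s) = s := by
  obtain ⟨x, ⟨u, v⟩, y, b⟩ := s
  simp [bar]

/-- walks with given end points -/
def Walk (R : Set (List A × List A)) : List A → List A → List (St A) → Prop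
  | a, b, [] => a = b
  | a, b, s :: l => s.2.1 ∈ R ∧ src s = a ∧ Walk R (tgt s) b l

variable {R : Set (List A × List A)} {w : List A}

@[simp] theorem walk_nil {a b : List A} : Walk R a b [] ↔ a = b := Iff.rfl

@[simp] theorem walk_cons {a b : List A} {s : St A} {l : List (St A)} :
    Walk R a b (s :: l) ↔ s.2.1 ∈ R ∧ src s = a ∧ Walk R (tgt s) b l := Iff.rfl

theorem walk_append {a c : List A} {l m : List (St A)} :
    Walk R a c (l ++ m) ↔ ∃ b, Walk R a b l ∧ Walk R b c m := by
  induction l generalizing a with
  | nil => simp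
  | cons s l ih =>
    simp only [List.cons_append, walk_cons, ih]
    constructor
    · rintro ⟨h1, h2, b, h3, h4⟩
      exact ⟨b, ⟨h1, h2, h3⟩, h4⟩
    · rintro ⟨b, ⟨h1, h2, h3⟩, h4⟩
      exact ⟨h1, h2, b, h3, h4⟩

theorem Walk.append {a b c : List A} {l m : List (St A)} (h1 : Walk R a b l) (h2 : Walk R b c m) :
    Walk R a c (l ++ m) := walk_append.2 ⟨b, h1, h2⟩

theorem walk_singleton {s : St A} (h : s.2.1 ∈ R) : Walk R (src s) (tgt s) [s] := ⟨h, rfl, rfl⟩

/-- reversal of a walk -/
def rv (l : List (St A)) : List (St A) := (l.map bar).reverse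

@[simp] theorem rv_nil : rv ([] : List (St A)) = [] := rfl
theorem rv_cons (s : St A) (l : List (St A)) : rv (s :: l) = rv l ++ [bar s] := by simp [rv]

theorem Walk.rv {a b : List A} {l : List (St A)} (h : Walk R a b l) : Walk R b a (rv l) := by
  induction l generalizing a with
  | nil => exact Eq.symm h
  | cons s l ih =>
    obtain ⟨h1, h2, h3⟩ := h
    rw [rv_cons]
    refine (ih h3).append ?_
    exact ⟨h1, src_bar s, (tgt_bar s).trans h2⟩

/-- the path condition of the frozen statement -/
def pathP (R : Set (List A × List A)) (l : List (St A)) : Prop :=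
  (∀ s ∈ l, s.2.1 ∈ R) ∧
    ∀ (i : ℕ) (s t : St A), l[i]? = some s → l[i+1]? = some t → tgt s = src t

theorem pathP_iff {l : List (St A)} : pathP R l ↔ ∃ a b, Walk R a b l := by
  induction l with
  | nil =>
    constructor
    · intro _; exact ⟨[], [], rfl⟩
    · intro _; exact ⟨by simp, by simp⟩
  | cons s l ih =>
    constructor
    · rintro ⟨h1, h2⟩
      have h3 : pathP R l := by
        refine ⟨fun t ht => h1 t (List.mem_cons_of_mem _ ht), fun i a b ha hb => ?_⟩
        exact h2 (i + 1) a b (by simpa using ha) (by simpa using hb)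
      obtain ⟨a, b, hab⟩ := ih.1 h3
      refine ⟨src s, ?_⟩
      rcases l with _ | ⟨t, l⟩
      · exact ⟨tgt s, h1 s (by simp), rfl, rfl⟩
      · refine ⟨b, h1 s (by simp), rfl, ?_⟩
        have h4 := h2 0 s t (by simp) (by simp)
        rw [h4, hab.2.1]
        exact hab
    · rintro ⟨a, b, h1, h2, h3⟩
      obtain ⟨h4, h5⟩ := ih.2 ⟨_, _, h3⟩
      refine ⟨?_, ?_⟩
      · intro t ht
        rcases List.mem_cons.1 ht with rfl | ht
        · exact h1
        · exact h4 t ht
      · intro i x y hx hy
        rcases i with _ | i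
        · rcases l with _ | ⟨t, l⟩
          · simp at hy
          · simp at hx hy
            subst hx; subst hy
            exact h3.2.1.symm
        · exact h5 i x y (by simpa using hx) (by simpa using hy)

theorem Walk.path {a b : List A} {l : List (St A)} (h : Walk R a b l) : pathP R l :=
  pathP_iff.2 ⟨a, b, h⟩

theorem walk_last {a b : List A} {l : List (St A)} (h : Walk R a b l) :
    ∀ s ∈ l.getLast?, tgt s = b := by
  induction l generalizing a with
  | nil => simp
  | cons s l ih =>
    obtain ⟨h1, h2, h3⟩ := h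
    rcases l with _ | ⟨t, l⟩
    · intro x hx
      simp at hx
      subst hx
      exact h3
    · intro x hx
      refine ih h3 x ?_
      simpa using hx

/-- the loop condition of the frozen statement -/
theorem loop_iff {l : List (St A)} : Walk R w w l ↔
    (pathP R l ∧ (∀ s ∈ l.head?, src s = w) ∧ (∀ s ∈ l.getLast?, tgt s = w)) := by
  constructor
  · intro h
    refine ⟨h.path, ?_, walk_last h⟩
    rcases l with _ | ⟨s, l⟩
    · simp
    · intro t ht
      simp at ht
      subst ht
      exact h.2.1
  · rintro ⟨h1, h2, h3⟩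
    obtain ⟨a, b, hab⟩ := pathP_iff.1 h1
    rcases l with _ | ⟨s, l⟩
    · rfl
    · have ha : a = w := by
        rw [← hab.2.1]
        exact h2 s (by simp)
      have hb : b = w := by
        have hne : (s :: l).getLast? = some ((s :: l).getLast (by simp)) := List.getLast?_eq_some_getLast _
        have h4 := walk_last hab _ hne
        have h5 := h3 _ hne
        rw [← h4, h5]
      rw [ha, hb] at hab
      exact hab

/-- the elementary homotopies of the frozen statement -/
def mv (R : Set (List A × List A)) (a b : List (St A)) : Prop :=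
  pathP R a ∧ pathP R b ∧
       ((∃ (p q : List (St A)) (x u v y : List A) (c : Bool),
            a = p ++ q ∧ b = p ++ [(x, (u, v), y, c), (x, (u, v), y, !c)] ++ q) ∨
        (∃ (p q : List (St A)) (x u₁ v₁ y u₂ v₂ z : List A),
            a = p ++ [(x, (u₁, v₁), y ++ u₂ ++ z, true), (x ++ v₁ ++ y, (u₂, v₂), z, true)] ++ q ∧
            b = p ++ [(x ++ u₁ ++ y, (u₂, v₂), z, true), (x, (u₁, v₁), y ++ v₂ ++ z, true)] ++ q))

theorem mv_context {l m : List (St A)} (h : mv R l m) (x y : List (St A))
    (h1 : pathP R (x ++ l ++ y)) (h2 : pathP R (x ++ m ++ y)) :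
    mv R (x ++ l ++ y) (x ++ m ++ y) := by
  refine ⟨h1, h2, ?_⟩
  rcases h.2.2 with ⟨p, q, a, u, v, b, c, rfl, rfl⟩ | ⟨p, q, a, u₁, v₁, b, u₂, v₂, c, rfl, rfl⟩
  · left
    exact ⟨x ++ p, q ++ y, a, u, v, b, c, by simp, by simp⟩
  · right
    exact ⟨x ++ p, q ++ y, a, u₁, v₁, b, u₂, v₂, c, by simp, by simp⟩

/-- The diagram group, as a set: loops at `w` modulo elementary homotopies through loops at `w`. -/
def D (R : Set (List A × List A)) (w : List A) : Type :=
  Quot (fun p q : {l : List (St A) // Walk R w w l} => mv R p.1 q.1)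

open Classical in
/-- class of a loop -/
noncomputable def cls (R : Set (List A × List A)) (w : List A) (l : List (St A)) : D R w :=
  if h : Walk R w w l then Quot.mk _ ⟨l, h⟩ else Quot.mk _ ⟨[], rfl⟩

theorem cls_eq {l : List (St A)} (h : Walk R w w l) : cls R w l = Quot.mk _ ⟨l, h⟩ := dif_pos h

theorem D_ind {P : D R w → Prop} (h : ∀ l, Walk R w w l → P (cls R w l)) (d : D R w) : P d := by
  induction d using Quot.ind with
  | mk a => obtain ⟨l, hl⟩ := a; rw [← cls_eq hl]; exact h l hl

theorem cls_congr {a b : List A} {x y l m : List (St A)} (hx : Walk R w a x) (hy : Walk R b w y)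
    (hl : Walk R a b l) (hm : Walk R a b m) (h : mv R l m) :
    cls R w (x ++ l ++ y) = cls R w (x ++ m ++ y) := by
  have h1 : Walk R w w (x ++ l ++ y) := (hx.append hl).append hy
  have h2 : Walk R w w (x ++ m ++ y) := (hx.append hm).append hy
  rw [cls_eq h1, cls_eq h2]
  exact Quot.sound (mv_context h x y h1.path h2.path)

theorem cls_mv {l m : List (St A)} (hl : Walk R w w l) (hm : Walk R w w m) (h : mv R l m) :
    cls R w l = cls R w m := by
  have := cls_congr (x := []) (y := []) (R := R) (w := w) rfl rfl hl hm h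
  simpa using this

theorem cls_ins {a : List A} {x y : List (St A)} (hx : Walk R w a x) (hy : Walk R a w y)
    {s : St A} (hs : s.2.1 ∈ R) (ha : src s = a) :
    cls R w (x ++ [s, bar s] ++ y) = cls R w (x ++ y) := by
  subst ha
  have hm : Walk R (src s) (src s) [s, bar s] := by
    refine ⟨hs, rfl, hs, src_bar s, tgt_bar s⟩
  have h : mv R ([] : List (St A)) [s, bar s] := by
    refine ⟨Walk.path (a := src s) (b := src s) rfl, hm.path, Or.inl ?_⟩
    obtain ⟨p, ⟨u, v⟩, q, c⟩ := s
    exact ⟨[], [], p, u, v, q, c, by simp, by simp [bar]⟩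
  have := cls_congr hx hy (l := []) (m := [s, bar s]) rfl hm h
  rw [← this]
  simp

theorem cls_cancel {a b : List A} {q : List (St A)} (hq : Walk R a b q) :
    ∀ {x y : List (St A)}, Walk R w b x → Walk R b w y →
      cls R w (x ++ rv q ++ q ++ y) = cls R w (x ++ y) := by
  induction q generalizing a with
  | nil => intro x y _ _; simp
  | cons s q ih =>
    intro x y hx hy
    obtain ⟨h1, h2, h3⟩ := hq
    have e1 : x ++ rv (s :: q) ++ (s :: q) ++ y = (x ++ rv q) ++ [bar s, bar (bar s)] ++ (q ++ y) := by
      rw [rv_cons, bar_bar]; simp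
    rw [e1, cls_ins (a := tgt s) (hx.append h3.rv) (h3.append hy) (s := bar s) h1 (src_bar s)]
    have := ih h3 hx hy
    rw [← this]
    simp

theorem rv_rv (l : List (St A)) : rv (rv l) = l := by
  simp only [rv, List.map_reverse, List.reverse_reverse, List.map_map]
  conv_rhs => rw [← List.map_id l]
  apply List.map_congr_left
  intro s _
  exact bar_bar s

theorem cls_cancel' {a b : List A} {q : List (St A)} (hq : Walk R a b q)
    {x y : List (St A)} (hx : Walk R w a x) (hy : Walk R a w y) :
    cls R w (x ++ q ++ rv q ++ y) = cls R w (x ++ y) := by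
  have := cls_cancel hq.rv (w := w) hx hy
  rwa [rv_rv] at this

/-- concatenation of loops -/
def lmul (p q : {l : List (St A) // Walk R w w l}) : {l : List (St A) // Walk R w w l} :=
  ⟨p.1 ++ q.1, p.2.append q.2⟩

instance : Mul (D R w) :=
  ⟨Quot.map₂ lmul
    (by
      intro a b c h
      have h1 := (lmul a b).2
      have h2 := (lmul a c).2
      have := mv_context h a.1 [] (by simpa [lmul] using Walk.path h1)
        (by simpa [lmul] using Walk.path h2)
      simpa [lmul] using this)
    (by
      intro a b c h
      have h1 := (lmul a c).2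
      have h2 := (lmul b c).2
      have := mv_context h [] c.1 (by simpa [lmul] using Walk.path h1)
        (by simpa [lmul] using Walk.path h2)
      simpa [lmul] using this)⟩

instance : One (D R w) := ⟨Quot.mk _ ⟨[], rfl⟩⟩

theorem cls_mul {p q : List (St A)} (hp : Walk R w w p) (hq : Walk R w w q) :
    cls R w p * cls R w q = cls R w (p ++ q) := by
  rw [cls_eq hp, cls_eq hq, cls_eq (hp.append hq)]
  rfl

theorem walk_refl (a : List A) : Walk R a a [] := rfl

theorem cls_nil : cls R w [] = 1 := cls_eq (walk_refl w)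

theorem exists_inv (d : D R w) : ∃ e : D R w, e * d = 1 := by
  induction d using D_ind with
  | h l hl =>
    refine ⟨cls R w (rv l), ?_⟩
    rw [cls_mul hl.rv hl, ← cls_nil]
    have := cls_cancel hl (w := w) (x := []) (y := []) rfl rfl
    simpa using this

noncomputable instance : Inv (D R w) := ⟨fun d => Classical.choose (exists_inv d)⟩

noncomputable instance : Group (D R w) :=
  Group.ofLeftAxioms
    (by
      intro a b c
      induction a using D_ind with
      | h a ha =>
      induction b using D_ind with
      | h b hb =>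
      induction c using D_ind with
      | h c hc =>
      rw [cls_mul ha hb, cls_mul hb hc, cls_mul (ha.append hb) hc, cls_mul ha (hb.append hc),
        List.append_assoc])
    (by
      intro a
      induction a using D_ind with
      | h a ha =>
      rw [← cls_nil, cls_mul (walk_refl w) ha]
      simp)
    (by
      intro a
      exact Classical.choose_spec (exists_inv a))

theorem cls_rv {l : List (St A)} (hl : Walk R w w l) : cls R w (rv l) = (cls R w l)⁻¹ := by
  rw [eq_inv_iff_mul_eq_one, cls_mul hl.rv hl, ← cls_nil]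
  have := cls_cancel hl (w := w) (x := []) (y := []) rfl rfl
  simpa using this

/-! ### labellings -/

section Lab
variable {H : Type} [Group H] (lam : St A → H)

/-- a labelling of the edges by elements of a group -/
structure IsLab (R : Set (List A × List A)) (lam : St A → H) : Prop where
  bar : ∀ s : St A, s.2.1 ∈ R → lam s * lam (bar s) = 1
  sq : ∀ x u₁ v₁ y u₂ v₂ z : List A, (u₁, v₁) ∈ R → (u₂, v₂) ∈ R →
    lam (x, (u₁, v₁), y ++ u₂ ++ z, true) * lam (x ++ v₁ ++ y, (u₂, v₂), z, true) =
      lam (x ++ u₁ ++ y, (u₂, v₂), z, true) * lam (x, (u₁, v₁), y ++ v₂ ++ z, true)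

variable {lam}

theorem lab_mv (hl : IsLab R lam) {a b : List (St A)} (h : mv R a b) :
    (a.map lam).prod = (b.map lam).prod := by
  obtain ⟨h1, h2, h3⟩ := h
  rcases h3 with ⟨p, q, x, u, v, y, c, rfl, rfl⟩ | ⟨p, q, x, u₁, v₁, y, u₂, v₂, z, rfl, rfl⟩
  · have := hl.bar (x, (u, v), y, c) (h2.1 _ (by simp))
    simp only [bar] at this
    simp only [List.map_append, List.prod_append, List.map_cons, List.map_nil, List.prod_cons,
      List.prod_nil, mul_one, this]
  · have := hl.sq x u₁ v₁ y u₂ v₂ z (h1.1 (x, (u₁, v₁), y ++ u₂ ++ z, true) (by simp))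
      (h1.1 (x ++ v₁ ++ y, (u₂, v₂), z, true) (by simp))
    simp only [List.map_append, List.prod_append, List.map_cons, List.map_nil, List.prod_cons,
      List.prod_nil, mul_one, this]

theorem lab_quot (hl : IsLab R lam) {a b : List (St A)} (h : Quot.mk (mv R) a = Quot.mk (mv R) b) :
    (a.map lam).prod = (b.map lam).prod := by
  have h1 := Quot.eqvGen_exact h
  clear h
  induction h1 with
  | rel _ _ h => exact lab_mv hl h
  | refl _ => rfl
  | symm _ _ _ ih => exact ih.symm
  | trans _ _ _ _ _ ih1 ih2 => exact ih1.trans ih2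

/-- the homomorphism defined by a labelling -/
def labHom (hl : IsLab R lam) (w : List A) : D R w →* H where
  toFun := Quot.lift (fun p => (p.1.map lam).prod) (fun _ _ h => lab_mv hl h)
  map_one' := rfl
  map_mul' := by
    intro a b
    induction a using Quot.ind with
    | mk a =>
    induction b using Quot.ind with
    | mk b =>
    show ((a.1 ++ b.1).map lam).prod = _
    simp

theorem labHom_cls (hl : IsLab R lam) {l : List (St A)} (h : Walk R w w l) :
    labHom hl w (cls R w l) = (l.map lam).prod := by
  rw [cls_eq h]; rfl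

end Lab

/-- equality in `D` implies equality in the quotient of the frozen statement -/
theorem quot_of_cls {p q : List (St A)} (hp : Walk R w w p) (hq : Walk R w w q)
    (h : cls R w p = cls R w q) : Quot.mk (mv R) p = Quot.mk (mv R) q := by
  rw [cls_eq hp, cls_eq hq] at h
  exact congrArg (Quot.lift (fun a : {l : List (St A) // Walk R w w l} => Quot.mk (mv R) a.1)
    (fun _ _ h => Quot.sound h)) h

/-! ### edge loops -/

section Edge
variable (R w) (γ : List A → List (St A))

/-- the loop given by a walk from `a` to `b`, closed up by the chosen walks -/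
noncomputable def E (a b : List A) (l : List (St A)) : D R w := cls R w (γ a ++ l ++ rv (γ b))

variable {R w γ}

theorem E_mul {a b c : List A} {l m : List (St A)} (ha : Walk R w a (γ a)) (hb : Walk R w b (γ b))
    (hc : Walk R w c (γ c)) (hl : Walk R a b l) (hm : Walk R b c m) :
    E R w γ a c (l ++ m) = E R w γ a b l * E R w γ b c m := by
  unfold E
  rw [cls_mul ((ha.append hl).append hb.rv) ((hb.append hm).append hc.rv)]
  have := cls_cancel hb (w := w) (x := γ a ++ l) (y := m ++ rv (γ c)) (ha.append hl)
    (hm.append hc.rv)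
  simp only [List.append_assoc] at this ⊢
  exact this.symm

theorem E_mv {a b : List A} {l m : List (St A)} (ha : Walk R w a (γ a)) (hb : Walk R w b (γ b))
    (hl : Walk R a b l) (hm : Walk R a b m) (h : mv R l m) :
    E R w γ a b l = E R w γ a b m := cls_congr ha hb.rv hl hm h

theorem E_nil {a : List A} (ha : Walk R w a (γ a)) : E R w γ a a [] = 1 := by
  unfold E
  have := cls_cancel' ha (w := w) (x := []) (y := []) rfl rfl
  simp only [List.nil_append, List.append_nil] at this ⊢
  rw [this, cls_nil]

theorem E_bar {a b : List A} {s : St A} (ha : Walk R w a (γ a)) (hb : Walk R w b (γ b))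
    (hs : Walk R a b [s]) : E R w γ b a [bar s] = (E R w γ a b [s])⁻¹ := by
  rw [eq_inv_iff_mul_eq_one]
  have hs' : Walk R b a [bar s] := by simpa [rv_cons] using hs.rv
  rw [← E_mul hb ha hb hs' hs, ← E_nil hb]
  symm
  apply E_mv hb hb (walk_refl b) (hs'.append hs)
  refine ⟨Walk.path (a := b) (b := b) rfl, (hs'.append hs).path, Or.inl ?_⟩
  obtain ⟨p, ⟨u, v⟩, q, c⟩ := s
  exact ⟨[], [], p, u, v, q, !c, by simp, by simp [bar]⟩

end Edge

end Pool.Agent.H599R3
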