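import Mathlib
import Pool.Agent.Helper867.PF.FreeRes

/-!
# Right-angled Artin groups are residually finite
-/

set_option autoImplicit false

namespace Pool.Agent.H599R3

/-- residual finiteness -/
def RFin (G : Type) [Group G] : Prop :=
  ∀ g : G, g ≠ 1 → ∃ (Q : Type) (_ : Group Q) (_ : Finite Q) (f : G →* Q), f g ≠ 1

theorem rfin_free (α : Type) : RFin (FreeGroup α) := by
  intro g hg
  obtain ⟨Q, i1, i2, f, _, hf⟩ := Pool.Agent.Helper867.PF.free_res g hg
  exact ⟨Q, i1, i2, f, hf⟩

theorem rfin_inj {G H : Type} [Group G] [Group H] (f : G →* H) (hf : Function.Injective f)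
    (h : RFin H) : RFin G := by
  intro g hg
  obtain ⟨Q, i1, i2, k, hk⟩ := h (f g) (fun h => hg (hf (h.trans (map_one f).symm)))
  exact ⟨Q, i1, i2, k.comp f, hk⟩

theorem rfin_finset {G : Type} [Group G] (h : RFin G) (S : Finset G) (hS : ∀ s ∈ S, s ≠ 1) :
    ∃ (Q : Type) (_ : Group Q) (_ : Finite Q) (f : G →* Q), ∀ s ∈ S, f s ≠ 1 := by
  classical
  induction S using Finset.induction_on with
  | empty => exact ⟨Unit, inferInstance, inferInstance, 1, by simp⟩
  | insert a S ha ih =>
    obtain ⟨Q, i1, i2, f, hf⟩ := ih (fun s hs => hS s (Finset.mem_insert_of_mem hs))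
    obtain ⟨P, j1, j2, k, hk⟩ := h a (hS a (Finset.mem_insert_self _ _))
    refine ⟨Q × P, inferInstance, inferInstance, f.prod k, ?_⟩
    intro s hs h1
    rcases Finset.mem_insert.1 hs with rfl | hs
    · exact hk (congrArg Prod.snd h1)
    · exact hf s hs (congrArg Prod.fst h1)

/-- shift action on functions -/
def sh (F P : Type) [Group F] [Group P] : F →* MulAut (F → P) where
  toFun g :=
    { toFun := fun β x => β (x * g)
      invFun := fun β x => β (x * g⁻¹)
      left_inv := fun β => by funext x; simp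
      right_inv := fun β => by funext x; simp
      map_mul' := fun _ _ => rfl }
  map_one' := by
    ext β x
    show β (x * 1) = β x
    rw [mul_one]
  map_mul' g h := by
    ext β x
    show β (x * (g * h)) = β (x * g * h)
    rw [mul_assoc]

theorem rfin_semi {N F : Type} [Group N] [Group F] [Finite F] (φ : F →* MulAut N) (hN : RFin N) :
    RFin (N ⋊[φ] F) := by
  intro z hz
  by_cases h1 : z.right = 1
  · have h2 : z.left ≠ 1 := by
      intro h
      exact hz (SemidirectProduct.ext h h1)
    obtain ⟨P, i1, i2, α, hα⟩ := hN _ h2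
    let fn : N →* (F → P) :=
      { toFun := fun n x => α (φ x n)
        map_one' := by funext x; simp
        map_mul' := fun a b => by funext x; simp }
    have hfn : ∀ g : F, fn.comp (φ g).toMonoidHom =
        ((sh F P) (MonoidHom.id F g)).toMonoidHom.comp fn := by
      intro g
      ext n x
      show α (φ x (φ g n)) = α (φ (x * g) n)
      rw [map_mul]
      rfl
    have hfin : Finite ((F → P) ⋊[sh F P] F) := Finite.of_equiv _ SemidirectProduct.equivProd.symm
    refine ⟨(F → P) ⋊[sh F P] F, inferInstance, hfin, SemidirectProduct.map fn (MonoidHom.id F) hfn, ?_⟩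
    intro h3
    have h4 := congrArg SemidirectProduct.left h3
    have h5 := congrFun h4 1
    apply hα
    have h6 : α (φ 1 z.left) = 1 := h5
    rw [map_one] at h6
    exact h6
  · exact ⟨F, inferInstance, inferInstance, SemidirectProduct.rightHom, h1⟩

/-- permutations act on the free group -/
def fperm (X : Type) : Equiv.Perm X →* MulAut (FreeGroup X) where
  toFun e := FreeGroup.freeGroupCongr e
  map_one' := by
    ext x
    show FreeGroup.map (Equiv.refl X) x = x
    simp
  map_mul' e f := by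
    ext x
    show FreeGroup.map (e * f) x = FreeGroup.map e (FreeGroup.map f x)
    rw [FreeGroup.map.comp]
    rfl

theorem fperm_of {X : Type} (e : Equiv.Perm X) (x : X) :
    fperm X e (FreeGroup.of x) = FreeGroup.of (e x) := by
  show FreeGroup.map e (FreeGroup.of x) = _
  simp

theorem map_fix {X : Type} [DecidableEq X] (f : FreeGroup X) (k : X → X)
    (h : ∀ p ∈ f.toWord, k p.1 = p.1) : FreeGroup.map k f = f := by
  conv_lhs => rw [← FreeGroup.mk_toWord (x := f)]
  conv_rhs => rw [← FreeGroup.mk_toWord (x := f)]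
  rw [FreeGroup.map.mk]
  congr 1
  conv_rhs => rw [← List.map_id f.toWord]
  apply List.map_congr_left
  intro p hp
  rw [h p hp]
  rfl

theorem rfin_semi_act {H X : Type} [Group H] (hH : RFin H) (α : H →* Equiv.Perm X)
    (hsep : ∀ T : Finset X, ∃ (F : Type) (_ : Group F) (_ : Finite F) (θ : H →* F) (Y : Type)
      (β : F →* Equiv.Perm Y) (π : X → Y), (∀ h x, π (α h x) = β (θ h) (π x)) ∧
        Set.InjOn π (T : Set X)) :
    RFin (FreeGroup X ⋊[(fperm X).comp α] H) := by
  classical
  intro z hz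
  by_cases h1 : z.right = 1
  · have h2 : z.left ≠ 1 := by
      intro h
      exact hz (SemidirectProduct.ext h h1)
    obtain ⟨F, i1, i2, θ, Y, β, π, hπ, hinj⟩ := hsep (z.left.toWord.map Prod.fst).toFinset
    have hfn : ∀ g : H, (FreeGroup.map π).comp (((fperm X).comp α) g).toMonoidHom =
        (((fperm Y).comp β) (θ g)).toMonoidHom.comp (FreeGroup.map π) := by
      intro g
      ext x
      show FreeGroup.map π (fperm X (α g) (FreeGroup.of x)) =
        fperm Y (β (θ g)) (FreeGroup.map π (FreeGroup.of x))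
      rw [fperm_of, FreeGroup.map.of, FreeGroup.map.of, fperm_of, hπ]
    let Φ := SemidirectProduct.map (FreeGroup.map π) θ hfn
    have h3 : (Φ z).left ≠ 1 := by
      intro h
      have h4 : FreeGroup.map π z.left = 1 := h
      obtain hX | hX := isEmpty_or_nonempty X
      · exact h2 (Subsingleton.elim _ _)
      · have h5 : FreeGroup.map (Function.invFunOn π ((z.left.toWord.map Prod.fst).toFinset : Set X))
            (FreeGroup.map π z.left) = z.left := by
          rw [FreeGroup.map.comp]
          apply map_fix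
          intro p hp
          show Function.invFunOn π _ (π p.1) = p.1
          have h6 : p.1 ∈ ((z.left.toWord.map Prod.fst).toFinset : Set X) := by
            simp only [List.coe_toFinset, Set.mem_ofPred_eq, List.mem_map]
            exact ⟨p, hp, rfl⟩
          exact hinj.leftInvOn_invFunOn h6
        rw [h4, map_one] at h5
        exact h2 h5.symm
    have h7 : Φ z ≠ 1 := fun h => h3 (by rw [h]; rfl)
    obtain ⟨Q, j1, j2, k, hk⟩ := rfin_semi ((fperm Y).comp β) (rfin_free Y) (Φ z) h7
    exact ⟨Q, j1, j2, k.comp Φ, hk⟩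
  · obtain ⟨Q, i1, i2, f, hf⟩ := hH _ h1
    exact ⟨Q, i1, i2, f.comp SemidirectProduct.rightHom, hf⟩

/-- two-sided multiplication -/
def two (Q : Type) [Group Q] : Q × Q →* Equiv.Perm Q where
  toFun p :=
    { toFun := fun y => p.1 * y * p.2⁻¹
      invFun := fun y => p.1⁻¹ * y * p.2
      left_inv := fun y => by group
      right_inv := fun y => by group }
  map_one' := by
    ext y
    show 1 * y * 1⁻¹ = y
    group
  map_mul' p q := by
    ext y
    show (p.1 * q.1) * y * (p.2 * q.2)⁻¹ = p.1 * (q.1 * y * q.2⁻¹) * p.2⁻¹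
    group

theorem rfin_retract {H : Type} [Group H] (hH : RFin H) (ρ : H →* H) (hρ : ∀ h, ρ (ρ h) = ρ h) :
    RFin (FreeGroup (H ⧸ (MonoidHom.eqLocus ρ (MonoidHom.id H)))
      ⋊[(fperm _).comp (MulAction.toPermHom H (H ⧸ (MonoidHom.eqLocus ρ (MonoidHom.id H))))] H) := by
  classical
  apply rfin_semi_act hH
  intro T
  let K := MonoidHom.eqLocus ρ (MonoidHom.id H)
  let S : Finset H := ((T ×ˢ T).filter (fun p => p.1 ≠ p.2)).image
    (fun p => (p.1.out⁻¹ * p.2.out)⁻¹ * ρ (p.1.out⁻¹ * p.2.out))
  have hS : ∀ s ∈ S, s ≠ 1 := by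
    intro s hs h1
    simp only [S, Finset.mem_image, Finset.mem_filter, Finset.mem_product] at hs
    obtain ⟨p, ⟨hp, hne⟩, rfl⟩ := hs
    apply hne
    rw [inv_mul_eq_one] at h1
    have h2 : p.1.out⁻¹ * p.2.out ∈ K := h1.symm
    have h3 := (QuotientGroup.eq (s := K)).2 h2
    simpa using h3
  obtain ⟨Q, i1, i2, q, hq⟩ := rfin_finset hH S hS
  let π : H ⧸ K → Q := Quotient.lift (fun h => q h * (q (ρ h))⁻¹) (by
    intro a b hab
    have h1 : a⁻¹ * b ∈ K := QuotientGroup.leftRel_apply.1 hab
    have h2 : ρ (a⁻¹ * b) = a⁻¹ * b := h1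
    obtain ⟨c, rfl⟩ : ∃ c, b = a * c := ⟨a⁻¹ * b, by group⟩
    rw [inv_mul_cancel_left] at h2
    show q a * (q (ρ a))⁻¹ = q (a * c) * (q (ρ (a * c)))⁻¹
    rw [map_mul ρ, h2, map_mul, map_mul]
    group)
  have hπ : ∀ h : H, π (QuotientGroup.mk h) = q h * (q (ρ h))⁻¹ := fun h => rfl
  refine ⟨Q × Q, inferInstance, inferInstance, q.prod (q.comp ρ), Q, two Q, π, ?_, ?_⟩
  · intro h x
    induction x using QuotientGroup.induction_on with
    | H x =>
      show π (QuotientGroup.mk (h * x)) = q h * (π (QuotientGroup.mk x)) * (q (ρ h))⁻¹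
      rw [hπ, hπ, map_mul, map_mul, map_mul]
      group
  · intro x hx y hy hxy
    by_contra hne
    have h1 : (x.out⁻¹ * y.out)⁻¹ * ρ (x.out⁻¹ * y.out) ∈ S := by
      simp only [S, Finset.mem_image, Finset.mem_filter, Finset.mem_product]
      exact ⟨(x, y), ⟨⟨hx, hy⟩, hne⟩, rfl⟩
    apply hq _ h1
    have h2 : π (QuotientGroup.mk x.out) = π (QuotientGroup.mk y.out) := by simpa using hxy
    rw [hπ, hπ] at h2
    have h3 : q y.out * (q (ρ y.out))⁻¹ * (q (ρ x.out) * (q x.out)⁻¹) = 1 := by
      rw [← h2]; group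
    rw [map_mul, map_inv, map_mul, map_inv, map_mul, map_inv, map_mul, map_inv]
    have h4 : q x.out = q y.out * (q (ρ y.out))⁻¹ * q (ρ x.out) := by
      rw [eq_comm, ← mul_inv_eq_one]
      rw [← h3]; group
    rw [h4]
    group

/-! ### right-angled Artin groups -/

/-- relators -/
abbrev ARel {V : Type} (Γ : SimpleGraph V) : Set (FreeGroup V) :=
  {r : FreeGroup V | ∃ s t, Γ.Adj s t ∧
            r = FreeGroup.of s * FreeGroup.of t * (FreeGroup.of s)⁻¹ * (FreeGroup.of t)⁻¹}

/-- the right-angled Artin group -/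
abbrev AG {V : Type} (Γ : SimpleGraph V) : Type := PresentedGroup (ARel Γ)

/-- the generators -/
abbrev ag {V : Type} (Γ : SimpleGraph V) (v : V) : AG Γ := PresentedGroup.of v

theorem ag_comm {V : Type} {Γ : SimpleGraph V} {s t : V} (h : Γ.Adj s t) :
    ag Γ s * ag Γ t = ag Γ t * ag Γ s := by
  have h1 : (PresentedGroup.mk (ARel Γ)) (FreeGroup.of s * FreeGroup.of t * (FreeGroup.of s)⁻¹ *
      (FreeGroup.of t)⁻¹) = 1 := by
    apply PresentedGroup.one_of_mem
    exact ⟨s, t, h, rfl⟩
  rw [map_mul, map_mul, map_mul, map_inv, map_inv] at h1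
  have h2 : ag Γ s * ag Γ t * (ag Γ s)⁻¹ * (ag Γ t)⁻¹ = 1 := h1
  rw [mul_inv_eq_one, mul_inv_eq_iff_eq_mul] at h2
  exact h2

/-- universal property -/
def aglift {V G : Type} [Group G] (Γ : SimpleGraph V) (f : V → G)
    (hf : ∀ s t, Γ.Adj s t → f s * f t = f t * f s) : AG Γ →* G :=
  PresentedGroup.toGroup (f := f) (by
    rintro r ⟨s, t, hst, rfl⟩
    simp only [map_mul, map_inv, FreeGroup.lift_apply_of]
    rw [mul_inv_eq_one, mul_inv_eq_iff_eq_mul]
    exact hf s t hst)

@[simp] theorem aglift_of {V G : Type} [Group G] (Γ : SimpleGraph V) (f : V → G)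
    (hf : ∀ s t, Γ.Adj s t → f s * f t = f t * f s) (v : V) :
    aglift Γ f hf (PresentedGroup.of v) = f v := PresentedGroup.toGroup.of _

theorem aghom_ext {V G : Type} [Group G] {Γ : SimpleGraph V} {f g : AG Γ →* G}
    (h : ∀ v, f (PresentedGroup.of v) = g (PresentedGroup.of v)) : f = g :=
  PresentedGroup.ext h

section Step
variable {V : Type} (Γ : SimpleGraph (Option V))

/-- the graph without the point `none` -/
abbrev Gs : SimpleGraph V := Γ.comap some

open Classical in
/-- the retraction to the link of `none` -/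
noncomputable def rho : AG (Gs Γ) →* AG (Gs Γ) :=
  aglift (Gs Γ) (fun s => if Γ.Adj none (some s) then PresentedGroup.of s else 1) (by
    intro s t hst
    by_cases h1 : Γ.Adj none (some s) <;> by_cases h2 : Γ.Adj none (some t) <;> simp [h1, h2]
    exact ag_comm hst)

theorem rho_of {s : V} (h : Γ.Adj none (some s)) :
    rho Γ (PresentedGroup.of s) = PresentedGroup.of s := by
  unfold rho
  rw [aglift_of, if_pos h]

theorem rho_of' {s : V} (h : ¬ Γ.Adj none (some s)) : rho Γ (PresentedGroup.of s) = 1 := by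
  unfold rho
  rw [aglift_of, if_neg h]

theorem rho_rho (h : AG (Gs Γ)) : rho Γ (rho Γ h) = rho Γ h := by
  have : (rho Γ).comp (rho Γ) = rho Γ := by
    apply aghom_ext
    intro s
    by_cases hs : Γ.Adj none (some s)
    · simp [rho_of Γ hs]
    · simp [rho_of' Γ hs]
  exact DFunLike.congr_fun this h

/-- the link subgroup -/
noncomputable abbrev KK : Subgroup (AG (Gs Γ)) := MonoidHom.eqLocus (rho Γ) (MonoidHom.id _)

/-- the semidirect product -/
abbrev SD : Type := FreeGroup (AG (Gs Γ) ⧸ KK Γ) ⋊[(fperm _).comp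
  (MulAction.toPermHom (AG (Gs Γ)) (AG (Gs Γ) ⧸ KK Γ))] AG (Gs Γ)

theorem sd_conj (g : AG (Gs Γ)) (x : AG (Gs Γ) ⧸ KK Γ) :
    (SemidirectProduct.inr g : SD Γ) * SemidirectProduct.inl (FreeGroup.of x) =
      SemidirectProduct.inl (FreeGroup.of (g • x)) * SemidirectProduct.inr g := by
  have h1 := SemidirectProduct.inl_aut (φ := (fperm _).comp
    (MulAction.toPermHom (AG (Gs Γ)) (AG (Gs Γ) ⧸ KK Γ))) g (FreeGroup.of x)
  have h2 : ((fperm _).comp (MulAction.toPermHom (AG (Gs Γ)) (AG (Gs Γ) ⧸ KK Γ))) g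
      (FreeGroup.of x) = FreeGroup.of (g • x) := fperm_of _ _
  rw [h2] at h1
  rw [h1]
  simp

/-- the map to the semidirect product -/
noncomputable def toSD : AG Γ →* SD Γ :=
  aglift Γ (fun s => match s with
    | none => SemidirectProduct.inl (FreeGroup.of (QuotientGroup.mk (1 : AG (Gs Γ))))
    | some s => SemidirectProduct.inr (PresentedGroup.of s)) (by
    have key : ∀ s : V, Γ.Adj none (some s) →
        (SemidirectProduct.inr (PresentedGroup.of s) : SD Γ) *
          SemidirectProduct.inl (FreeGroup.of (QuotientGroup.mk (1 : AG (Gs Γ)))) =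
        SemidirectProduct.inl (FreeGroup.of (QuotientGroup.mk (1 : AG (Gs Γ)))) *
          SemidirectProduct.inr (PresentedGroup.of s) := by
      intro s hs
      rw [sd_conj]
      congr 3
      show (QuotientGroup.mk (PresentedGroup.of s * 1) : AG (Gs Γ) ⧸ KK Γ) = QuotientGroup.mk 1
      rw [mul_one, QuotientGroup.eq, mul_one, inv_mem_iff]
      exact rho_of Γ hs
    intro s t hst
    rcases s with _ | s <;> rcases t with _ | t
    · exact absurd hst (Γ.irrefl)
    · exact (key t hst).symm
    · exact key s hst.symm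
    · show SemidirectProduct.inr _ * SemidirectProduct.inr _ = SemidirectProduct.inr _ * SemidirectProduct.inr _
      rw [← map_mul, ← map_mul]
      congr 1
      exact ag_comm (Γ := Gs Γ) hst)

/-- the inclusion -/
noncomputable def inc : AG (Gs Γ) →* AG Γ :=
  aglift (Gs Γ) (fun s => PresentedGroup.of (some s)) (fun _ _ h => ag_comm (Γ := Γ) h)

theorem inc_rho (h : AG (Gs Γ)) :
    inc Γ (rho Γ h) * ag Γ none = ag Γ none * inc Γ (rho Γ h) := by
  have h1 : (MulAut.conj (ag Γ none)).toMonoidHom.comp ((inc Γ).comp (rho Γ)) =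
      (inc Γ).comp (rho Γ) := by
    apply aghom_ext
    intro s
    by_cases hs : Γ.Adj none (some s)
    · have h2 : inc Γ (PresentedGroup.of s) = ag Γ (some s) := aglift_of _ _ _ _
      simp only [MonoidHom.comp_apply, rho_of Γ hs, h2]
      show ag Γ none * ag Γ (some s) * (ag Γ none)⁻¹ = ag Γ (some s)
      rw [ag_comm hs]; group
    · simp only [MonoidHom.comp_apply, rho_of' Γ hs, map_one]
  have h3 := DFunLike.congr_fun h1 h
  have h4 : ag Γ none * inc Γ (rho Γ h) * (ag Γ none)⁻¹ = inc Γ (rho Γ h) := h3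
  rw [mul_inv_eq_iff_eq_mul] at h4
  exact h4.symm

/-- the free part of the inverse map -/
noncomputable def fn : FreeGroup (AG (Gs Γ) ⧸ KK Γ) →* AG Γ :=
  FreeGroup.lift (fun x => inc Γ x.out * ag Γ none * (inc Γ x.out)⁻¹)

theorem fn_of (h : AG (Gs Γ)) : fn Γ (FreeGroup.of (QuotientGroup.mk h)) =
    inc Γ h * ag Γ none * (inc Γ h)⁻¹ := by
  unfold fn
  rw [FreeGroup.lift_apply_of]
  obtain ⟨k, hk⟩ := QuotientGroup.mk_out_eq_mul (KK Γ) h
  rw [hk, map_mul]
  have h1 : rho Γ k.1 = k.1 := k.2
  have h2 := inc_rho Γ k.1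
  rw [h1] at h2
  have h3 : inc Γ h * inc Γ k.1 * ag Γ none * (inc Γ h * inc Γ k.1)⁻¹ =
    inc Γ h * (inc Γ k.1 * ag Γ none) * (inc Γ k.1)⁻¹ * (inc Γ h)⁻¹ := by group
  rw [h3, h2]
  group

/-- the inverse map -/
noncomputable def frSD : SD Γ →* AG Γ :=
  SemidirectProduct.lift (fn Γ) (inc Γ) (by
    intro g
    ext x
    induction x using QuotientGroup.induction_on with
    | H x =>
      show fn Γ (fperm _ (MulAction.toPermHom (AG (Gs Γ)) (AG (Gs Γ) ⧸ KK Γ) g)
        (FreeGroup.of (QuotientGroup.mk x))) =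
        inc Γ g * fn Γ (FreeGroup.of (QuotientGroup.mk x)) * (inc Γ g)⁻¹
      rw [fperm_of]
      show fn Γ (FreeGroup.of (QuotientGroup.mk (g * x))) = _
      rw [fn_of, fn_of, map_mul]
      group)

theorem frSD_toSD (g : AG Γ) : frSD Γ (toSD Γ g) = g := by
  have h1 : (frSD Γ).comp (toSD Γ) = MonoidHom.id _ := by
    apply aghom_ext
    intro s
    rcases s with _ | s
    · show frSD Γ (toSD Γ (PresentedGroup.of none)) = PresentedGroup.of none
      have h2 : toSD Γ (PresentedGroup.of none) =
        SemidirectProduct.inl (FreeGroup.of (QuotientGroup.mk (1 : AG (Gs Γ)))) := aglift_of _ _ _ _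
      rw [h2]
      unfold frSD
      rw [SemidirectProduct.lift_inl, fn_of]
      simp
    · show frSD Γ (toSD Γ (PresentedGroup.of (some s))) = PresentedGroup.of (some s)
      have h2 : toSD Γ (PresentedGroup.of (some s)) =
        SemidirectProduct.inr (PresentedGroup.of s) := aglift_of _ _ _ _
      rw [h2]
      unfold frSD
      rw [SemidirectProduct.lift_inr]
      exact aglift_of _ _ _ _
  exact DFunLike.congr_fun h1 g

theorem rfin_step (h : RFin (AG (Gs Γ))) : RFin (AG Γ) := by
  apply rfin_inj (toSD Γ)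
  · intro a b hab
    rw [← frSD_toSD Γ a, ← frSD_toSD Γ b, hab]
  · exact rfin_retract h (rho Γ) (rho_rho Γ)

end Step

theorem rfin_equiv {V W : Type} (e : V ≃ W) (h : ∀ Γ : SimpleGraph V, RFin (AG Γ))
    (Γ : SimpleGraph W) : RFin (AG Γ) := by
  let f : AG Γ →* AG (Γ.comap e) := aglift Γ (fun w => PresentedGroup.of (e.symm w)) (by
    intro s t hst
    apply ag_comm
    simpa using hst)
  let g : AG (Γ.comap e) →* AG Γ := aglift (Γ.comap e) (fun w => PresentedGroup.of (e w)) (by
    intro s t hst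
    exact ag_comm hst)
  apply rfin_inj f _ (h (Γ.comap e))
  have h1 : g.comp f = MonoidHom.id _ := by
    apply aghom_ext
    intro s
    simp [f, g]
  intro a b hab
  have h2 := DFunLike.congr_fun h1 a
  have h3 := DFunLike.congr_fun h1 b
  simp only [MonoidHom.comp_apply, MonoidHom.id_apply] at h2 h3
  rw [← h2, ← h3, hab]

theorem rfin_finite (V : Type) [Finite V] : ∀ Γ : SimpleGraph V, RFin (AG Γ) := by
  induction V using Finite.induction_empty_option with
  | of_equiv e h => exact rfin_equiv e h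
  | h_empty =>
    intro Γ g hg
    exfalso
    apply hg
    have : (MonoidHom.id (AG Γ)) = 1 := aghom_ext (fun v => v.elim)
    exact DFunLike.congr_fun this g
  | h_option h =>
    intro Γ
    exact rfin_step Γ (h (Gs Γ))

theorem rfin_raag {V : Type} (Γ : SimpleGraph V) : RFin (AG Γ) := by
  classical
  intro g hg
  obtain ⟨w, rfl⟩ := PresentedGroup.mk_surjective (ARel Γ) g
  let S : Finset V := (w.toWord.map Prod.fst).toFinset
  let ρ : AG Γ →* AG (Γ.comap (Subtype.val : S → V)) :=
    aglift Γ (fun v => if h : v ∈ S then PresentedGroup.of ⟨v, h⟩ else 1) (by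
      intro s t hst
      by_cases h1 : s ∈ S <;> by_cases h2 : t ∈ S <;> simp [h1, h2]
      apply ag_comm
      exact hst)
  let ι : AG (Γ.comap (Subtype.val : S → V)) →* AG Γ :=
    aglift _ (fun v => PresentedGroup.of v.1) (fun _ _ h => ag_comm h)
  have h1 : ι (ρ (PresentedGroup.mk (ARel Γ) w)) = PresentedGroup.mk (ARel Γ) w := by
    let k : V → FreeGroup V := fun v => if v ∈ S then FreeGroup.of v else 1
    have h2 : ((ι.comp ρ).comp (PresentedGroup.mk (ARel Γ))) =
        (PresentedGroup.mk (ARel Γ)).comp (FreeGroup.lift k) := by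
      ext v
      simp only [MonoidHom.comp_apply, FreeGroup.lift_apply_of, k]
      show ι (ρ (PresentedGroup.of v)) = _
      by_cases hv : v ∈ S
      · simp [ρ, ι, hv]; rfl
      · simp [ρ, ι, hv]
    have h3 : FreeGroup.lift k w = w := by
      conv_lhs => rw [← FreeGroup.mk_toWord (x := w)]
      conv_rhs => rw [← FreeGroup.mk_toWord (x := w)]
      have h4 : ∀ L : List (V × Bool), (∀ p ∈ L, p.1 ∈ S) →
          FreeGroup.lift k (FreeGroup.mk L) = FreeGroup.mk L := by
        intro L
        induction L with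
        | nil => intro _; rfl
        | cons p L ih =>
          intro hL
          have e1 : (FreeGroup.mk (p :: L) : FreeGroup V) = FreeGroup.mk [p] * FreeGroup.mk L := by
            rw [FreeGroup.mul_mk]; rfl
          rw [e1, map_mul, ih (fun q hq => hL q (List.mem_cons_of_mem _ hq))]
          congr 1
          obtain ⟨a, b⟩ := p
          have ha : a ∈ S := hL (a, b) (by simp)
          cases b
          · have e2 : (FreeGroup.mk [(a, false)] : FreeGroup V) = (FreeGroup.of a)⁻¹ := by
              rw [FreeGroup.of, FreeGroup.inv_mk]; rfl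
            rw [e2, map_inv, FreeGroup.lift_apply_of]
            simp [k, ha]
          · have e2 : (FreeGroup.mk [(a, true)] : FreeGroup V) = FreeGroup.of a := rfl
            rw [e2, FreeGroup.lift_apply_of]
            simp [k, ha]
      apply h4
      intro p hp
      simp only [S, List.mem_toFinset, List.mem_map]
      exact ⟨p, hp, rfl⟩
    have h5 := DFunLike.congr_fun h2 w
    simp only [MonoidHom.comp_apply, h3] at h5
    exact h5
  have h6 : ρ (PresentedGroup.mk (ARel Γ) w) ≠ 1 := by
    intro h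
    rw [h, map_one] at h1
    exact hg h1.symm
  obtain ⟨Q, i1, i2, f, hf⟩ := rfin_finite S (Γ.comap (Subtype.val : S → V)) _ h6
  exact ⟨Q, i1, i2, f.comp ρ, hf⟩

/-- In a residually finite group, an element commuting with `t⁻ⁿ l tⁿ` for all `n ≥ 0`
commutes with `t l t⁻¹`. -/
theorem rfin_half {G : Type} [Group G] (h : RFin G) (u l t : G)
    (hc : ∀ n : ℕ, u * (t⁻¹ ^ n * l * t ^ n) = (t⁻¹ ^ n * l * t ^ n) * u) :
    u * (t * l * t⁻¹) = (t * l * t⁻¹) * u := by
  by_contra hne
  obtain ⟨Q, i1, i2, f, hf⟩ := h (u * (t * l * t⁻¹) * ((t * l * t⁻¹) * u)⁻¹)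
    (fun h => hne (mul_inv_eq_one.1 h))
  apply hf
  obtain ⟨m, hm, hm'⟩ := isOfFinOrder_iff_pow_eq_one.1 (isOfFinOrder_of_finite (f t))
  obtain ⟨n, rfl⟩ := Nat.exists_eq_succ_of_ne_zero hm.ne'
  have h1 : (f t)⁻¹ ^ n = f t := by
    rw [inv_pow, inv_eq_iff_mul_eq_one, ← pow_succ]
    exact hm'
  have h2 : f t ^ n = (f t)⁻¹ := eq_inv_of_mul_eq_one_left (by rw [← pow_succ]; exact hm')
  have h3 := congrArg f (hc n)
  simp only [map_mul, map_pow, map_inv, h1, h2] at h3
  rw [map_mul, map_inv, mul_inv_eq_one]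
  simp only [map_mul, map_inv]
  exact h3

end Pool.Agent.H599R3
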