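import Mathlib
import Pool.Agent.H599R3.Dg
import Pool.Agent.H599R3.RF
import Pool.Agent.H599R3.Fr

/-!
# The diagram group of `⟨x, p, y | x = xp, x = xpp, y = py, y = ppy⟩` with base word `xy`
-/

set_option autoImplicit false

namespace Pool.Agent.H599R3

/-- letters -/
inductive Al | x | p | y
  deriving DecidableEq

open Al

/-- amounts -/
def amt : Bool → ℕ
  | false => 1
  | true => 2

/-- left relations -/
abbrev rL (c : Bool) : List Al × List Al := ([x], x :: List.replicate (amt c) p)
/-- right relations -/
abbrev rR (c : Bool) : List Al × List Al := ([y], List.replicate (amt c) p ++ [y])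

/-- the presentation -/
def R0 : Set (List Al × List Al) := {r | ∃ c, r = rL c ∨ r = rR c}

/-- the words of the component -/
def W (n : ℕ) : List Al := x :: (List.replicate n p ++ [y])

/-- left steps -/
def SL (c : Bool) (n : ℕ) : St Al := ([], rL c, List.replicate n p ++ [y], true)
/-- right steps -/
def SR (c : Bool) (n : ℕ) : St Al := (x :: List.replicate n p, rR c, [], true)

theorem SL_mem (c : Bool) (n : ℕ) : (SL c n).2.1 ∈ R0 := ⟨c, Or.inl rfl⟩
theorem SR_mem (c : Bool) (n : ℕ) : (SR c n).2.1 ∈ R0 := ⟨c, Or.inr rfl⟩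

theorem src_SL (c : Bool) (n : ℕ) : src (SL c n) = W n := by simp [src, SL, W]
theorem tgt_SL (c : Bool) (n : ℕ) : tgt (SL c n) = W (n + amt c) := by
  simp only [tgt, SL, W, rL, if_true, List.nil_append, List.cons_append]
  rw [← List.append_assoc, List.replicate_append_replicate, Nat.add_comm]
theorem src_SR (c : Bool) (n : ℕ) : src (SR c n) = W n := by simp [src, SR, W]
theorem tgt_SR (c : Bool) (n : ℕ) : tgt (SR c n) = W (n + amt c) := by
  simp only [tgt, SR, W, rR, if_true, List.append_nil, List.cons_append]
  rw [← List.append_assoc, List.replicate_append_replicate]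

theorem walk_SL (c : Bool) (n : ℕ) : Walk R0 (W n) (W (n + amt c)) [SL c n] :=
  ⟨SL_mem c n, src_SL c n, tgt_SL c n⟩
theorem walk_SR (c : Bool) (n : ℕ) : Walk R0 (W n) (W (n + amt c)) [SR c n] :=
  ⟨SR_mem c n, src_SR c n, tgt_SR c n⟩

theorem W_inj {m n : ℕ} (h : W m = W n) : m = n := by
  have := congrArg List.length h
  simpa [W] using this

theorem left_dec {a b : List Al} {n : ℕ} (h : a ++ x :: b = W n) :
    a = [] ∧ b = List.replicate n p ++ [y] := by
  rcases a with _ | ⟨c, a⟩
  · simpa [W] using h
  · exfalso
    simp only [W, List.cons_append, List.cons.injEq] at h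
    have h1 : x ∈ List.replicate n p ++ [y] := by rw [← h.2]; simp
    simp at h1

theorem right_dec {a b : List Al} {n : ℕ} (h : a ++ y :: b = W n) :
    b = [] ∧ a = x :: List.replicate n p := by
  rcases List.eq_nil_or_concat b with rfl | ⟨b, c, rfl⟩
  · refine ⟨rfl, ?_⟩
    have h1 : a ++ [y] = (x :: List.replicate n p) ++ [y] := by rw [h]; simp [W]
    exact (List.append_inj' h1 rfl).1
  · exfalso
    have h1 : (a ++ y :: b) ++ [c] = (x :: List.replicate n p) ++ [y] := by
      simpa [W] using h
    have h2 := (List.append_inj' h1 rfl).1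
    have h3 : y ∈ x :: List.replicate n p := by rw [← h2]; simp
    simp at h3

theorem rep_dec {k n : ℕ} {b : List Al} (h : List.replicate k p ++ b = List.replicate n p ++ [y]) :
    ∃ m, n = m + k ∧ b = List.replicate m p ++ [y] := by
  induction k generalizing n with
  | zero => exact ⟨n, rfl, by simpa using h⟩
  | succ k ih =>
    rcases n with _ | n
    · simp [List.replicate_succ] at h
    · simp only [List.replicate_succ, List.cons_append, List.cons.injEq, true_and] at h
      obtain ⟨m, h1, h2⟩ := ih h
      exact ⟨m, by omega, h2⟩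

theorem rep_dec' {k n : ℕ} {a : List Al} (h : a ++ List.replicate k p = x :: List.replicate n p) :
    ∃ m, n = m + k ∧ a = x :: List.replicate m p := by
  induction k generalizing n with
  | zero => exact ⟨n, rfl, by simpa using h⟩
  | succ k ih =>
    rw [List.replicate_succ', ← List.append_assoc] at h
    rcases n with _ | n
    · exfalso
      have h1 : (a ++ List.replicate k p) ++ [p] = [] ++ [x] := by simpa using h
      have h2 := (List.append_inj' h1 rfl).2
      simp at h2
    · have h1 : (a ++ List.replicate k p) ++ [p] = (x :: List.replicate n p) ++ [p] := by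
        rw [h, List.replicate_succ']; simp
      have h2 := (List.append_inj' h1 rfl).1
      obtain ⟨m, h3, h4⟩ := ih h2
      exact ⟨m, by omega, h4⟩

/-- classification of the steps leaving a word of the component -/
theorem classify {s : St Al} {n : ℕ} (hs : s.2.1 ∈ R0) (h : src s = W n) :
    ∃ c, (s = SL c n ∨ s = SR c n) ∨
      ∃ m, n = m + amt c ∧ (s = bar (SL c m) ∨ s = bar (SR c m)) := by
  obtain ⟨a, ⟨u, v⟩, b, e⟩ := s
  obtain ⟨c, hc | hc⟩ := hs
  · simp only [rL, Prod.mk.injEq] at hc
    obtain ⟨rfl, rfl⟩ := hc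
    refine ⟨c, ?_⟩
    cases e
    · right
      have h1 : a ++ x :: (List.replicate (amt c) p ++ b) = W n := by
        simpa [src] using h
      obtain ⟨rfl, h2⟩ := left_dec h1
      obtain ⟨m, h3, rfl⟩ := rep_dec h2
      exact ⟨m, h3, Or.inl rfl⟩
    · left; left
      have h1 : a ++ x :: b = W n := by simpa [src] using h
      obtain ⟨rfl, rfl⟩ := left_dec h1
      rfl
  · simp only [rR, Prod.mk.injEq] at hc
    obtain ⟨rfl, rfl⟩ := hc
    refine ⟨c, ?_⟩
    cases e
    · right
      have h1 : (a ++ List.replicate (amt c) p) ++ y :: b = W n := by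
        simpa [src] using h
      obtain ⟨rfl, h2⟩ := right_dec h1
      obtain ⟨m, h3, rfl⟩ := rep_dec' h2
      exact ⟨m, h3, Or.inr rfl⟩
    · left; right
      have h1 : a ++ y :: b = W n := by simpa [src] using h
      obtain ⟨rfl, rfl⟩ := right_dec h1
      rfl

/-- the component -/
def C : Set (List Al) := {l | ∃ n, l = W n}

theorem C_tgt {s : St Al} (hs : s.2.1 ∈ R0) (h : src s ∈ C) : tgt s ∈ C := by
  obtain ⟨n, hn⟩ := h
  obtain ⟨c, (rfl | rfl) | ⟨m, -, rfl | rfl⟩⟩ := classify hs hn
  · exact ⟨_, tgt_SL c n⟩
  · exact ⟨_, tgt_SR c n⟩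
  · exact ⟨m, (tgt_bar _).trans (src_SL c m)⟩
  · exact ⟨m, (tgt_bar _).trans (src_SR c m)⟩

theorem C_iff {s : St Al} (hs : s.2.1 ∈ R0) : tgt s ∈ C ↔ src s ∈ C := by
  constructor
  · intro h
    have h1 : src (bar s) ∈ C := by rw [src_bar]; exact h
    have h2 := C_tgt (s := bar s) hs h1
    rwa [tgt_bar] at h2
  · exact C_tgt hs

/-! ### labellings -/

section Lab
variable {H : Type} [Group H] (ell : ℕ → H) (r : Bool → H)

/-- label of a positive step of the component -/
def blab (s : St Al) : H :=
  if s.2.1 = rL true then ell (s.2.2.1.length - 1)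
  else if s.2.1 = rR false then r false
  else if s.2.1 = rR true then r true
  else 1

open Classical in
/-- the labelling -/
noncomputable def lam (s : St Al) : H :=
  if src s ∈ C then (if s.2.2.2 then blab ell r s else (blab ell r s)⁻¹) else 1

/-- label of left steps -/
def el (c : Bool) (n : ℕ) : H := if c then ell n else 1

theorem blab_SL (c : Bool) (n : ℕ) : blab ell r (SL c n) = el ell c n := by
  cases c
  · simp [blab, SL, rL, rR, amt, el]
  · simp [blab, SL, rL, rR, amt, el]

theorem blab_SR (c : Bool) (n : ℕ) : blab ell r (SR c n) = r c := by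
  cases c
  · simp [blab, SR, rL, rR, amt]
  · simp [blab, SR, rL, rR, amt]

theorem lam_SL (c : Bool) (n : ℕ) : lam ell r (SL c n) = el ell c n := by
  have h : src (SL c n) ∈ C := ⟨n, src_SL c n⟩
  unfold lam
  rw [if_pos h, ← blab_SL ell r]
  rfl

theorem lam_SR (c : Bool) (n : ℕ) : lam ell r (SR c n) = r c := by
  have h : src (SR c n) ∈ C := ⟨n, src_SR c n⟩
  unfold lam
  rw [if_pos h, ← blab_SR ell r c n]
  rfl

theorem lam_bar {s : St Al} (hs : s.2.1 ∈ R0) : lam ell r (bar s) = (lam ell r s)⁻¹ := by
  have h1 : src (bar s) ∈ C ↔ src s ∈ C := by rw [src_bar]; exact C_iff hs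
  obtain ⟨a, uv, b, e⟩ := s
  unfold lam
  by_cases h : src (a, uv, b, e) ∈ C
  · rw [if_pos h, if_pos (h1.2 h)]
    cases e <;> simp [bar, blab]
  · rw [if_neg h, if_neg (fun h' => h (h1.1 h'))]
    simp

theorem isLab_lam (hr : ∀ (c : Bool) (n : ℕ), ell n * r c = r c * ell (n + amt c)) :
    IsLab R0 (lam ell r) where
  bar s hs := by rw [lam_bar ell r hs, mul_inv_cancel]
  sq a u₁ v₁ b u₂ v₂ d h1 h2 := by
    by_cases hC : src (a, (u₁, v₁), b ++ u₂ ++ d, true) ∈ C
    · obtain ⟨n, hn⟩ := hC
      obtain ⟨c, hc⟩ := h1
      obtain ⟨c', hc'⟩ := h2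
      have hn' : a ++ u₁ ++ b ++ u₂ ++ d = W n := by simpa [src] using hn
      -- `u₁ = x`
      rcases hc with hc | hc
      · simp only [rL, Prod.mk.injEq] at hc
        obtain ⟨rfl, rfl⟩ := hc
        rcases hc' with hc' | hc'
        · exfalso
          simp only [rL, Prod.mk.injEq] at hc'
          obtain ⟨rfl, rfl⟩ := hc'
          have h3 : (a ++ [x] ++ b) ++ x :: d = W n := by simpa using hn'
          have h4 := (left_dec h3).1
          simp at h4
        · simp only [rR, Prod.mk.injEq] at hc'
          obtain ⟨rfl, rfl⟩ := hc'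
          have h3 : (a ++ [x] ++ b) ++ y :: d = W n := by simpa using hn'
          obtain ⟨rfl, h4⟩ := right_dec h3
          have h5 : a ++ x :: (b ++ [y]) = W n := by simpa using hn'
          obtain ⟨rfl, h6⟩ := left_dec h5
          have h7 : b = List.replicate n p := (List.append_inj' h6 rfl).1
          subst h7
          have e1 : (([], ([x], x :: List.replicate (amt c) p), List.replicate n p ++ [y] ++ [],
            true) : St Al) = SL c n := by simp [SL]
          have e2 : (([] ++ (x :: List.replicate (amt c) p) ++ List.replicate n p,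
              ([y], List.replicate (amt c') p ++ [y]), [], true) : St Al) = SR c' (n + amt c) := by
            simp only [SR, rR, List.nil_append, List.cons_append]
            rw [List.replicate_append_replicate, Nat.add_comm]
          have e3 : (([] ++ [x] ++ List.replicate n p,
              ([y], List.replicate (amt c') p ++ [y]), [], true) : St Al) = SR c' n := by
            simp [SR]
          have e4 : (([], ([x], x :: List.replicate (amt c) p), List.replicate n p ++
              (List.replicate (amt c') p ++ [y]) ++ [], true) : St Al) = SL c (n + amt c') := by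
            simp only [SL, rL, List.append_nil]
            rw [← List.append_assoc, List.replicate_append_replicate]
          rw [e1, e2, e3, e4, lam_SL, lam_SR, lam_SR, lam_SL]
          cases c
          · simp [el]
          · simpa [el] using hr c' n
      · exfalso
        simp only [rR, Prod.mk.injEq] at hc
        obtain ⟨rfl, rfl⟩ := hc
        have h3 : a ++ y :: (b ++ u₂ ++ d) = W n := by simpa using hn'
        have h4 := (right_dec h3).1
        rcases hc' with hc' | hc'
        · simp only [rL, Prod.mk.injEq] at hc'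
          obtain ⟨rfl, rfl⟩ := hc'
          simp at h4
        · simp only [rR, Prod.mk.injEq] at hc'
          obtain ⟨rfl, rfl⟩ := hc'
          simp at h4
    · have g1 : src (a ++ v₁ ++ b, (u₂, v₂), d, true) ∉ C := by
        have e1 : src (a ++ v₁ ++ b, (u₂, v₂), d, true) =
          tgt (a, (u₁, v₁), b ++ u₂ ++ d, true) := by simp [src, tgt]
        rw [e1, C_iff h1]; exact hC
      have g2 : src (a ++ u₁ ++ b, (u₂, v₂), d, true) ∉ C := by
        have e1 : src (a ++ u₁ ++ b, (u₂, v₂), d, true) =
          src (a, (u₁, v₁), b ++ u₂ ++ d, true) := by simp [src]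
        rw [e1]; exact hC
      have g3 : src (a, (u₁, v₁), b ++ v₂ ++ d, true) ∉ C := by
        have e1 : src (a, (u₁, v₁), b ++ v₂ ++ d, true) =
          tgt (a ++ u₁ ++ b, (u₂, v₂), d, true) := by simp [src, tgt]
        rw [e1, C_iff h2]; exact g2
      unfold lam
      rw [if_neg hC, if_neg g1, if_neg g2, if_neg g3]

end Lab

/-! ### the chosen paths -/

/-- the chosen paths -/
def gam (l : List Al) : List (St Al) := (List.range (l.length - 2)).map (SL false)

theorem gam_W (n : ℕ) : gam (W n) = (List.range n).map (SL false) := by simp [gam, W]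

theorem gam_succ (n : ℕ) : gam (W (n + 1)) = gam (W n) ++ [SL false n] := by
  simp [gam_W, List.range_succ]

theorem walk_gam (n : ℕ) : Walk R0 (W 0) (W n) (gam (W n)) := by
  induction n with
  | zero => simp [gam_W]
  | succ n ih =>
    rw [gam_succ]
    exact ih.append (walk_SL false n)

/-- the diagram group -/
abbrev DD : Type := D R0 (W 0)

/-- edge loops -/
noncomputable abbrev EE (m n : ℕ) (l : List (St Al)) : DD := E R0 (W 0) gam (W m) (W n) l

theorem EE_one (n : ℕ) : EE n (n + amt false) [SL false n] = 1 := by
  show cls R0 (W 0) (gam (W n) ++ [SL false n] ++ rv (gam (W (n + 1)))) = 1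
  rw [← gam_succ]
  have := cls_cancel' (walk_gam (n + 1)) (w := W 0) (x := []) (y := []) rfl rfl
  simp only [List.nil_append, List.append_nil] at this
  rw [this, cls_nil]

theorem EE_sq (c c' : Bool) (n : ℕ) :
    EE n (n + amt c) [SL c n] * EE (n + amt c) (n + amt c + amt c') [SR c' (n + amt c)] =
    EE n (n + amt c') [SR c' n] * EE (n + amt c') (n + amt c' + amt c) [SL c (n + amt c')] := by
  have e : n + amt c + amt c' = n + amt c' + amt c := by omega
  have w1 := (walk_SL c n).append (walk_SR c' (n + amt c))
  have w2 := (walk_SR c' n).append (walk_SL c (n + amt c'))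
  rw [← E_mul (walk_gam _) (walk_gam _) (walk_gam _) (walk_SL c n) (walk_SR c' (n + amt c)),
    ← E_mul (walk_gam _) (walk_gam _) (walk_gam _) (walk_SR c' n) (walk_SL c (n + amt c'))]
  rw [e] at w1 ⊢
  apply E_mv (walk_gam _) (walk_gam _) w1 w2
  refine ⟨w1.path, w2.path, Or.inr ⟨[], [], [], [x], x :: List.replicate (amt c) p,
    List.replicate n p, [y], List.replicate (amt c') p ++ [y], [], ?_, ?_⟩⟩
  · simp only [SL, SR, rL, rR, List.nil_append, List.append_nil, List.cons_append]
    rw [List.replicate_append_replicate, Nat.add_comm]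
  · simp only [SL, SR, rL, rR, List.nil_append, List.append_nil, List.cons_append]
    rw [← List.append_assoc, List.replicate_append_replicate]

/-- right generators -/
noncomputable def rho0 (c : Bool) : DD := EE 0 (0 + amt c) [SR c 0]
/-- left generators -/
noncomputable def lam0 (n : ℕ) : DD := EE n (n + amt true) [SL true n]

theorem EE_SR (c : Bool) (n : ℕ) : EE n (n + amt c) [SR c n] = rho0 c := by
  induction n with
  | zero => rfl
  | succ n ih =>
    have := EE_sq false c n
    rw [EE_one, one_mul, EE_one, mul_one] at this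
    rw [← ih]
    exact this

theorem lam_rho (c : Bool) (n : ℕ) : lam0 n * rho0 c = rho0 c * lam0 (n + amt c) := by
  have := EE_sq true c n
  rw [EE_SR, EE_SR] at this
  exact this

end Pool.Agent.H599R3
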