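import Mathlib
import Pool.Agent.H599R3.Ex

/-!
# The diagram group embeds into a free-by-free group
-/

set_option autoImplicit false

open scoped commutatorElement

namespace Pool.Agent.H599R3

open Al

/-- free group of rank two -/
abbrev F2 : Type := FreeGroup Bool

/-- the set of basis elements -/
def Om : Type := Quot (fun a b : F2 × ℕ => ∃ c : Bool, b = (a.1 * FreeGroup.of c, a.2 + amt c))

/-- class -/
def om (g : F2) (n : ℕ) : Om := Quot.mk _ (g, n)

theorem om_rel (g : F2) (n : ℕ) (c : Bool) : om (g * FreeGroup.of c) (n + amt c) = om g n :=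
  (Quot.sound ⟨c, rfl⟩).symm

instance : MulAction F2 Om where
  smul g := Quot.map (fun a => (g * a.1, a.2)) (by
    rintro a b ⟨c, rfl⟩
    exact ⟨c, by simp [mul_assoc]⟩)
  one_smul a := by
    induction a using Quot.ind with
    | mk a =>
    show Quot.mk _ (1 * a.1, a.2) = Quot.mk _ a
    rw [one_mul]
  mul_smul g h a := by
    induction a using Quot.ind with
    | mk a =>
    show Quot.mk _ (g * h * a.1, a.2) = Quot.mk _ (g * (h * a.1), a.2)
    rw [mul_assoc]

theorem smul_om (g h : F2) (n : ℕ) : g • om h n = om (g * h) n := rfl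

/-- the action homomorphism -/
def aho : F2 →* MulAut (FreeGroup Om) := (fperm Om).comp (MulAction.toPermHom F2 Om)

/-- the free-by-free group -/
abbrev GG : Type := FreeGroup Om ⋊[aho] F2

/-- left labels -/
def ell (n : ℕ) : GG := SemidirectProduct.inl (FreeGroup.of (om 1 n))
/-- right labels -/
def rr (c : Bool) : GG := SemidirectProduct.inr (FreeGroup.of c)

theorem gg_conj (g : F2) (x : Om) :
    (SemidirectProduct.inr g : GG) * SemidirectProduct.inl (FreeGroup.of x) =
      SemidirectProduct.inl (FreeGroup.of (g • x)) * SemidirectProduct.inr g := by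
  have h1 := SemidirectProduct.inl_aut (φ := aho) g (FreeGroup.of x)
  have h2 : aho g (FreeGroup.of x) = FreeGroup.of (g • x) := fperm_of _ _
  rw [h2] at h1
  rw [h1]
  simp

theorem ell_rr (c : Bool) (n : ℕ) : ell n * rr c = rr c * ell (n + amt c) := by
  unfold ell rr
  rw [gg_conj, smul_om, mul_one]
  have := om_rel 1 n c
  rw [one_mul] at this
  rw [this]

/-- the labelling -/
noncomputable abbrev lamG : St Al → GG := lam ell rr

theorem isLab : IsLab R0 lamG := isLab_lam ell rr ell_rr

theorem lamG_SL (c : Bool) (n : ℕ) : lamG (SL c n) = el ell c n := lam_SL _ _ _ _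
theorem lamG_SR (c : Bool) (n : ℕ) : lamG (SR c n) = rr c := lam_SR _ _ _ _
theorem lamG_bar {s : St Al} (hs : s.2.1 ∈ R0) : lamG (bar s) = (lamG s)⁻¹ := lam_bar _ _ hs

/-- the homomorphism -/
noncomputable def LL : DD →* GG := labHom isLab (W 0)

/-- from the free quotient -/
noncomputable def th2 : F2 →* DD := FreeGroup.lift rho0

theorem th2_of (c : Bool) : th2 (FreeGroup.of c) = rho0 c := FreeGroup.lift_apply_of

/-- from the free kernel -/
noncomputable def th1 : FreeGroup Om →* DD :=
  FreeGroup.lift (Quot.lift (fun a => th2 a.1 * lam0 a.2 * (th2 a.1)⁻¹) (by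
    rintro ⟨g, n⟩ b ⟨c, rfl⟩
    show th2 g * lam0 n * (th2 g)⁻¹ = th2 (g * FreeGroup.of c) * lam0 (n + amt c) *
      (th2 (g * FreeGroup.of c))⁻¹
    rw [map_mul, th2_of]
    have h1 : th2 g * rho0 c * lam0 (n + amt c) * (th2 g * rho0 c)⁻¹ =
      th2 g * (rho0 c * lam0 (n + amt c)) * (rho0 c)⁻¹ * (th2 g)⁻¹ := by group
    rw [h1, ← lam_rho]
    group))

theorem th1_of (g : F2) (n : ℕ) :
    th1 (FreeGroup.of (om g n)) = th2 g * lam0 n * (th2 g)⁻¹ := FreeGroup.lift_apply_of

/-- the inverse -/
noncomputable def TH : GG →* DD := SemidirectProduct.lift th1 th2 (by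
  intro g
  ext x
  induction x using Quot.ind with
  | mk x =>
    obtain ⟨h, n⟩ := x
    show th1 (fperm Om (MulAction.toPermHom F2 Om g) (FreeGroup.of (om h n))) =
      th2 g * th1 (FreeGroup.of (om h n)) * (th2 g)⁻¹
    rw [fperm_of]
    show th1 (FreeGroup.of (om (g * h) n)) = _
    rw [th1_of, th1_of, map_mul]
    group)

theorem TH_inl (a : FreeGroup Om) : TH (SemidirectProduct.inl a) = th1 a :=
  SemidirectProduct.lift_inl _ _ _ _
theorem TH_inr (a : F2) : TH (SemidirectProduct.inr a) = th2 a :=
  SemidirectProduct.lift_inr _ _ _ _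

theorem TH_SL (c : Bool) (n : ℕ) : TH (lamG (SL c n)) = EE n (n + amt c) [SL c n] := by
  rw [lamG_SL]
  cases c
  · rw [EE_one]
    show TH 1 = 1
    rw [map_one]
  · show TH (SemidirectProduct.inl (FreeGroup.of (om 1 n))) = lam0 n
    rw [TH_inl, th1_of, map_one]
    simp

theorem TH_SR (c : Bool) (n : ℕ) : TH (lamG (SR c n)) = EE n (n + amt c) [SR c n] := by
  rw [lamG_SR, EE_SR]
  show TH (SemidirectProduct.inr (FreeGroup.of c)) = rho0 c
  rw [TH_inr, th2_of]

theorem TH_walk {l : List (St Al)} : ∀ {m n : ℕ}, Walk R0 (W m) (W n) l →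
    TH ((l.map lamG).prod) = EE m n l := by
  induction l with
  | nil =>
    intro m n h
    have h1 : m = n := W_inj h
    subst h1
    show TH 1 = _
    rw [map_one]
    exact (E_nil (walk_gam m)).symm
  | cons s l ih =>
    intro m n h
    obtain ⟨h1, h2, h3⟩ := h
    have key : ∀ k, tgt s = W k → TH (lamG s) = EE m k [s] →
        TH (((s :: l).map lamG).prod) = EE m n (s :: l) := by
      intro k hk hs
      rw [hk] at h3
      have h4 := ih h3
      have h5 : Walk R0 (W m) (W k) [s] := ⟨h1, h2, hk⟩
      have h6 := E_mul (walk_gam m) (walk_gam k) (walk_gam n) h5 h3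
      rw [List.map_cons, List.prod_cons, map_mul, h4, hs]
      exact h6.symm
    obtain ⟨c, (rfl | rfl) | ⟨k, hk, rfl | rfl⟩⟩ := classify h1 h2
    · exact key _ (tgt_SL c m) (TH_SL c m)
    · exact key _ (tgt_SR c m) (TH_SR c m)
    · subst hk
      refine key k ((tgt_bar _).trans (src_SL c k)) ?_
      rw [lamG_bar (SL_mem c k), map_inv, TH_SL]
      exact (E_bar (walk_gam _) (walk_gam _) (walk_SL c k)).symm
    · subst hk
      refine key k ((tgt_bar _).trans (src_SR c k)) ?_
      rw [lamG_bar (SR_mem c k), map_inv, TH_SR]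
      exact (E_bar (walk_gam _) (walk_gam _) (walk_SR c k)).symm

theorem TH_LL (d : DD) : TH (LL d) = d := by
  induction d using D_ind with
  | h l hl =>
    unfold LL
    rw [labHom_cls isLab hl, TH_walk hl]
    show cls R0 (W 0) (gam (W 0) ++ l ++ rv (gam (W 0))) = _
    simp [gam_W]

theorem LL_inj : Function.Injective LL := by
  intro a b h
  rw [← TH_LL a, ← TH_LL b, h]

theorem LL_EE {m n : ℕ} {l : List (St Al)} (hl : Walk R0 (W m) (W n) l) :
    LL (EE m n l) = (l.map lamG).prod := by
  have h0 : ∀ n, ((gam (W n)).map lamG).prod = 1 := by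
    intro n
    induction n with
    | zero => simp [gam_W]
    | succ n ih =>
      rw [gam_succ, List.map_append, List.prod_append, ih]
      simp [lamG_SL, el]
  have h1 : ∀ n, ((rv (gam (W n))).map lamG).prod = 1 := by
    intro n
    induction n with
    | zero => simp [gam_W]
    | succ n ih =>
      rw [gam_succ]
      have e : rv (gam (W n) ++ [SL false n]) = bar (SL false n) :: rv (gam (W n)) := by
        simp [rv]
      rw [e, List.map_cons, List.prod_cons, ih, lamG_bar (SL_mem false n), lamG_SL]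
      simp [el]
  unfold LL EE E
  rw [labHom_cls isLab (((walk_gam m).append hl).append (walk_gam n).rv)]
  rw [List.map_append, List.map_append, List.prod_append, List.prod_append, h0, h1]
  simp

theorem LL_rho (c : Bool) : LL (rho0 c) = rr c := by
  unfold rho0
  rw [LL_EE (walk_SR c 0)]
  simp [lamG_SR]

theorem LL_lam (n : ℕ) : LL (lam0 n) = ell n := by
  unfold lam0
  rw [LL_EE (walk_SL true n)]
  simp [lamG_SL, el]

/-! ### a permutation representation separating two classes -/

/-- permutation representation on the integers -/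
def tau : F2 →* Equiv.Perm ℤ :=
  FreeGroup.lift (fun c => if c then Equiv.swap 1 2 * Equiv.addRight 2 else Equiv.addRight 1)

theorem tau_pt (c : Bool) (n : ℕ) : tau (FreeGroup.of c) (-((n + amt c : ℕ) : ℤ)) = -(n : ℤ) := by
  unfold tau
  rw [FreeGroup.lift_apply_of]
  cases c
  · simp [amt]
  · simp only [if_true, amt, Equiv.Perm.coe_mul, Function.comp_apply, Equiv.coe_addRight]
    push_cast
    rw [show -((n : ℤ) + 2) + 2 = -(n : ℤ) by ring]
    apply Equiv.swap_apply_of_ne_of_ne <;> omega

/-- the invariant of a class -/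
def inva : Om → ℤ := Quot.lift (fun a => tau a.1 (-(a.2 : ℤ))) (by
  rintro ⟨g, n⟩ b ⟨c, rfl⟩
  show tau g (-(n : ℤ)) = tau (g * FreeGroup.of c) (-((n + amt c : ℕ) : ℤ))
  rw [map_mul, Equiv.Perm.mul_apply, tau_pt])

theorem inva_om (g : F2) (n : ℕ) : inva (om g n) = tau g (-(n : ℤ)) := rfl

/-! ### no right-angled Artin group contains `DD` -/

theorem not_raag {V : Type} (Γ : SimpleGraph V) (φ : DD →* AG Γ) : ¬ Function.Injective φ := by
  intro hφ
  set t : DD := rho0 false with ht
  set u : DD := rho0 true * t⁻¹ * t⁻¹ with hu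
  have h1 : ∀ n, lam0 (n + 1) = t⁻¹ * lam0 n * t := by
    intro n
    have := lam_rho false n
    rw [mul_assoc, ht, this, inv_mul_cancel_left]
    rfl
  have h2 : ∀ n : ℕ, lam0 n = t⁻¹ ^ n * lam0 0 * t ^ n := by
    intro n
    induction n with
    | zero => simp
    | succ n ih =>
      rw [h1, ih, pow_succ', pow_succ]
      simp only [mul_assoc]
  have h3 : ∀ n : ℕ, u * lam0 n = lam0 n * u := by
    intro n
    have h4 := lam_rho true n
    have h5 : lam0 (n + 2) = t⁻¹ * t⁻¹ * lam0 n * t * t := by
      rw [h1 (n + 1), h1 n]; group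
    have h6 : lam0 (n + amt true) = lam0 (n + 2) := rfl
    rw [h6, h5] at h4
    have h7 : lam0 n * u = lam0 n * rho0 true * t⁻¹ * t⁻¹ := by rw [hu]; group
    rw [h7, h4, hu]
    group
  have h8 := rfin_half (rfin_raag Γ) (φ u) (φ (lam0 0)) (φ t) (by
    intro n
    have := congrArg φ (h3 n)
    rw [h2 n] at this
    simpa only [map_mul, map_pow, map_inv] using this)
  have h9 : u * (t * lam0 0 * t⁻¹) = (t * lam0 0 * t⁻¹) * u := by
    apply hφ
    simpa only [map_mul, map_inv] using h8
  have h10 := congrArg LL h9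
  rw [hu, ht] at h10
  simp only [map_mul, map_inv, LL_rho, LL_lam] at h10
  -- compute in `GG`
  set g : F2 := FreeGroup.of true * (FreeGroup.of false)⁻¹ * (FreeGroup.of false)⁻¹ with hg
  have h11 : rr false * ell 0 * (rr false)⁻¹ =
      SemidirectProduct.inl (FreeGroup.of (om (FreeGroup.of false) 0)) := by
    unfold rr ell
    rw [gg_conj, smul_om, mul_one, mul_inv_cancel_right]
  have h12 : rr true * (rr false)⁻¹ * (rr false)⁻¹ = (SemidirectProduct.inr g : GG) := by
    unfold rr
    rw [hg, map_mul, map_mul, map_inv]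
  rw [h11, h12, gg_conj, smul_om] at h10
  have h13 := mul_right_cancel h10
  have h14 := FreeGroup.of_injective (SemidirectProduct.inl_injective h13)
  have h15 := congrArg inva h14
  rw [inva_om, inva_om, hg] at h15
  simp only [map_mul, map_inv, Equiv.Perm.mul_apply] at h15
  unfold tau at h15
  simp only [FreeGroup.lift_apply_of] at h15
  norm_num [Equiv.Perm.inv_def] at h15

end Pool.Agent.H599R3
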