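import Mathlib

/-!
# Leftmost-first normal forms of sequences of cells (abstract version)

A cell is a pair `(n, c)`: position and kind.  `p c` is the length of the top of a cell of kind
`c`, and `p (inv c)` the length of its bottom.
-/

set_option autoImplicit false

namespace Pool.Agent.H599R3

namespace Nf

variable {C : Type*} (p : C → ℕ) (inv : C → C)

open Classical in
/-- put a cell in front of a normal sequence and normalise -/
noncomputable def push : ℕ → C → List (ℕ × C) → List (ℕ × C)
  | n, c, [] => [(n, c)]
  | n, c, t :: l =>
      if t = (n, inv c) then l
      else if t.1 + p t.2 ≤ n then t :: push (n + p (inv t.2) - p t.2) c l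
      else (n, c) :: t :: l

/-- the head of the list may follow `s` in a normal sequence -/
def Ok (s : ℕ × C) : List (ℕ × C) → Prop
  | [] => True
  | t :: _ => s.1 < t.1 + p t.2 ∧ t ≠ (s.1, inv s.2)

/-- normal sequences -/
def Nrm : List (ℕ × C) → Prop
  | [] => True
  | s :: l => Ok p inv s l ∧ Nrm l

variable {p inv}
variable (hp : ∀ c, 1 ≤ p c) (hi : ∀ c, inv (inv c) = c)

include hp in
theorem ok_push {s : ℕ × C} {l : List (ℕ × C)} (h1 : Ok p inv s l) (h2 : Nrm p inv l)
    {n : ℕ} (c : C) (h3 : s.1 + p (inv s.2) ≤ n) : Ok p inv s (push p inv n c l) := by
  have hs := hp (inv s.2)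
  rcases l with _ | ⟨t, l⟩
  · simp only [push, Ok]
    refine ⟨by omega, ?_⟩
    intro h
    have := congrArg Prod.fst h
    simp at this
    omega
  · simp only [push]
    split_ifs with h4 h5
    · rcases l with _ | ⟨t', l⟩
      · trivial
      · have h6 := h2.1
        subst h4
        simp only [Ok] at h6 ⊢
        refine ⟨by omega, ?_⟩
        intro h
        rw [h] at h6
        simp at h6
        omega
    · exact h1
    · simp only [Ok]
      refine ⟨by omega, ?_⟩
      intro h
      have := congrArg Prod.fst h
      simp at this
      omega

include hp in
theorem push_nrm {l : List (ℕ × C)} : ∀ {n : ℕ} {c : C}, Nrm p inv l → Nrm p inv (push p inv n c l) := by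
  induction l with
  | nil => intro n c _; exact ⟨trivial, trivial⟩
  | cons t l ih =>
    intro n c h
    simp only [push]
    split_ifs with h4 h5
    · exact h.2
    · refine ⟨ok_push hp h.1 h.2 c (by omega), ih h.2⟩
    · refine ⟨⟨by simp; omega, ?_⟩, h⟩
      simpa using h4

theorem push_ok {l : List (ℕ × C)} {n : ℕ} {c : C} (h : Ok p inv (n, c) l) :
    push p inv n c l = (n, c) :: l := by
  rcases l with _ | ⟨t, l⟩
  · rfl
  · simp only [push]
    have h1 := h.1
    have h2 := h.2
    simp only at h1
    rw [if_neg (by simpa using h2), if_neg (by omega)]

include hp hi in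
theorem push_push_inv {l : List (ℕ × C)} : ∀ {n : ℕ} {c : C}, Nrm p inv l →
    push p inv n c (push p inv n (inv c) l) = l := by
  induction l with
  | nil =>
    intro n c _
    simp [push]
  | cons t l ih =>
    intro n c h
    by_cases h1 : t = (n, inv (inv c))
    · have e1 : push p inv n (inv c) (t :: l) = l := by
        simp only [push]; rw [if_pos h1]
      rw [e1]
      rw [hi] at h1
      subst h1
      exact push_ok h.1
    · by_cases h2 : t.1 + p t.2 ≤ n
      · have e1 : push p inv n (inv c) (t :: l) =
            t :: push p inv (n + p (inv t.2) - p t.2) (inv c) l := by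
          simp only [push]; rw [if_neg h1, if_pos h2]
        rw [e1]
        have h3 : t ≠ (n, inv c) := by
          intro h3
          have := congrArg Prod.fst h3
          have := hp t.2
          simp at *
          omega
        rw [push, if_neg h3, if_pos h2, ih h.2]
      · have e1 : push p inv n (inv c) (t :: l) = (n, inv c) :: t :: l := by
          simp only [push]; rw [if_neg h1, if_neg h2]
        rw [e1, push, if_pos rfl]

include hp hi in
theorem push_swap {l : List (ℕ × C)} : ∀ {n m : ℕ} {c d : C}, Nrm p inv l → m + p d ≤ n →
    push p inv n c (push p inv m d l) =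
      push p inv m d (push p inv (n + p (inv d) - p d) c l) := by
  induction l with
  | nil =>
    intro n m c d _ h
    have h1 := hp d
    have h2 := hp (inv d)
    have h3 := hp c
    simp only [push]
    rw [if_neg (by intro h4; have := congrArg Prod.fst h4; simp at this; omega), if_pos (by simpa using h),
      if_neg (by intro h4; have := congrArg Prod.fst h4; simp at this; omega), if_neg (by simp; omega)]
  | cons r l ih =>
    intro n m c d hl h
    have h1 := hp d
    have h2 := hp (inv d)
    have h3 := hp c
    have h4 := hp r.2
    have h5 := hp (inv r.2)
    by_cases ha : r = (m, inv d)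
    · -- cancellation of the left cell
      have e1 : push p inv m d (r :: l) = l := by simp only [push]; rw [if_pos ha]
      have e2 : push p inv (n + p (inv d) - p d) c (r :: l) = r :: push p inv n c l := by
        simp only [push]
        rw [if_neg, if_pos]
        · subst ha
          simp only [hi]
          congr 2
          omega
        · subst ha; simp only; omega
        · subst ha
          intro h6
          have := congrArg Prod.fst h6
          simp at this
          omega
      rw [e1, e2, push, if_pos ha]
    · by_cases hb : r.1 + p r.2 ≤ m
      · have e1 : push p inv m d (r :: l) = r :: push p inv (m + p (inv r.2) - p r.2) d l := by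
          simp only [push]; rw [if_neg ha, if_pos hb]
        have hne : ∀ k : ℕ, ∀ e : C, m ≤ k → r ≠ (k, e) := by
          intro k e hk h6
          have := congrArg Prod.fst h6
          simp at this
          omega
        have e2 : push p inv n c (r :: push p inv (m + p (inv r.2) - p r.2) d l) =
            r :: push p inv (n + p (inv r.2) - p r.2) c (push p inv (m + p (inv r.2) - p r.2) d l) := by
          rw [push, if_neg (hne _ _ (by omega)), if_pos (by omega)]
        have e3 : push p inv (n + p (inv d) - p d) c (r :: l) =
            r :: push p inv (n + p (inv d) - p d + p (inv r.2) - p r.2) c l := by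
          rw [push, if_neg (hne _ _ (by omega)), if_pos (by omega)]
        rw [e1, e2, e3, push, if_neg (hne _ _ le_rfl), if_pos hb, ih hl.2 (by omega)]
        congr 3
        omega
      · have e1 : push p inv m d (r :: l) = (m, d) :: r :: l := by
          simp only [push]; rw [if_neg ha, if_neg hb]
        have e2 : push p inv n c ((m, d) :: r :: l) =
            (m, d) :: push p inv (n + p (inv d) - p d) c (r :: l) := by
          rw [push, if_neg (by intro h6; have := congrArg Prod.fst h6; simp at this; omega), if_pos (by simpa using h)]
        rw [e1, e2]
        symm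
        apply push_ok
        have h6 : Ok p inv (m, d) (r :: l) := ⟨by simp; omega, by simpa using ha⟩
        exact ok_push hp h6 hl c (by simp; omega)

theorem length_push {l : List (ℕ × C)} : ∀ {n : ℕ} {c : C},
    (push p inv n c l).length ≤ l.length + 1 := by
  induction l with
  | nil => intro n c; simp [push]
  | cons t l ih =>
    intro n c
    simp only [push]
    split_ifs with h4 h5
    · simp; omega
    · have := @ih (n + p (inv t.2) - p t.2) c
      simp; omega
    · simp

/-- normal form -/
noncomputable def nf (p : C → ℕ) (inv : C → C) (l : List (ℕ × C)) : List (ℕ × C) :=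
  l.foldr (fun s acc => push p inv s.1 s.2 acc) []

@[simp] theorem nf_nil : nf p inv [] = [] := rfl
@[simp] theorem nf_cons (s : ℕ × C) (l : List (ℕ × C)) :
    nf p inv (s :: l) = push p inv s.1 s.2 (nf p inv l) := rfl

include hp in
theorem nf_nrm (l : List (ℕ × C)) : Nrm p inv (nf p inv l) := by
  induction l with
  | nil => trivial
  | cons s l ih => exact push_nrm hp ih

theorem nf_of_nrm {l : List (ℕ × C)} (h : Nrm p inv l) : nf p inv l = l := by
  induction l with
  | nil => rfl
  | cons s l ih => rw [nf_cons, ih h.2, push_ok h.1]

theorem length_nf (l : List (ℕ × C)) : (nf p inv l).length ≤ l.length := by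
  induction l with
  | nil => simp
  | cons s l ih =>
    rw [nf_cons]
    have := @length_push C p inv (nf p inv l) s.1 s.2
    simp; omega

theorem nf_append_congr {a l m : List (ℕ × C)} (h : nf p inv l = nf p inv m) :
    nf p inv (a ++ l) = nf p inv (a ++ m) := by
  induction a with
  | nil => exact h
  | cons s a ih => simp only [List.cons_append, nf_cons, ih]

include hp hi in
theorem nf_cancel (a b : List (ℕ × C)) (n : ℕ) (c : C) :
    nf p inv (a ++ [(n, c), (n, inv c)] ++ b) = nf p inv (a ++ b) := by
  rw [List.append_assoc]
  apply nf_append_congr
  simp only [List.cons_append, List.nil_append, nf_cons]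
  exact push_push_inv hp hi (nf_nrm hp b)

include hp hi in
theorem nf_swap (a b : List (ℕ × C)) (n m : ℕ) (c d : C) (h : m + p d ≤ n) :
    nf p inv (a ++ [(n, c), (m, d)] ++ b) =
      nf p inv (a ++ [(m, d), (n + p (inv d) - p d, c)] ++ b) := by
  rw [List.append_assoc, List.append_assoc]
  apply nf_append_congr
  simp only [List.cons_append, List.nil_append, nf_cons]
  exact push_swap hp hi (nf_nrm hp b) h

end Nf

end Pool.Agent.H599R3
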