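import Pool.Agent.H599R3.Dg
import Pool.Agent.H599R3.Nf

/-!
# Values of walks in the diagram group; exchange of independent cells; reduced diagrams
-/

set_option autoImplicit false

namespace Pool.Agent.H599R3

variable {A : Type}

/-- top word of a cell (`b = true`: the cell is `u = v`; `b = false`: its inverse) -/
def inn (r : List A × List A) (b : Bool) : List A := if b then r.1 else r.2
/-- bottom word of a cell -/
def out (r : List A × List A) (b : Bool) : List A := if b then r.2 else r.1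

/-- exchange of two consecutive cells acting on disjoint subwords: both lists of elementary
rewritings are the same diagram -/
def Flip (l m : List (St A)) : Prop :=
  ∃ (a b : List (St A)) (x y z : List A) (r₁ r₂ : List A × List A) (b₁ b₂ : Bool),
    l = a ++ [(x, r₁, y ++ inn r₂ b₂ ++ z, b₁), (x ++ out r₁ b₁ ++ y, r₂, z, b₂)] ++ b ∧
    m = a ++ [(x ++ inn r₁ b₁ ++ y, r₂, z, b₂), (x, r₁, y ++ out r₂ b₂ ++ z, b₁)] ++ b

/-- two lists of elementary rewritings give the same diagram (up to isotopy) -/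
def Same (l m : List (St A)) : Prop := Relation.EqvGen Flip l m

/-- a dipole: a cell directly followed by its inverse -/
def HasDipole (l : List (St A)) : Prop := ∃ (a b : List (St A)) (s : St A), l = a ++ [s, bar s] ++ b

/-- reduced diagrams: no dipole -/
def Reduced (l : List (St A)) : Prop := ∀ m, Same l m → ¬ HasDipole m

/-- equality modulo the relations -/
def Eqv (R : Set (List A × List A)) (a b : List A) : Prop := ∃ l, Walk R a b l

variable {R : Set (List A × List A)} {w : List A}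

theorem src_def (s : St A) : src s = s.1 ++ inn s.2.1 s.2.2.2 ++ s.2.2.1 := rfl
theorem tgt_def (s : St A) : tgt s = s.1 ++ out s.2.1 s.2.2.2 ++ s.2.2.1 := rfl

@[simp] theorem inn_not (r : List A × List A) (b : Bool) : inn r (!b) = out r b := by
  cases b <;> rfl
@[simp] theorem out_not (r : List A × List A) (b : Bool) : out r (!b) = inn r b := by
  cases b <;> rfl

theorem Eqv.refl (a : List A) : Eqv R a a := ⟨[], rfl⟩
theorem Eqv.symm {a b : List A} (h : Eqv R a b) : Eqv R b a := by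
  obtain ⟨l, hl⟩ := h
  exact ⟨rv l, hl.rv⟩
theorem Eqv.trans {a b c : List A} (h : Eqv R a b) (h' : Eqv R b c) : Eqv R a c := by
  obtain ⟨l, hl⟩ := h
  obtain ⟨m, hm⟩ := h'
  exact ⟨l ++ m, hl.append hm⟩

/-- add contexts to a step -/
def ctx (x y : List A) (s : St A) : St A := (x ++ s.1, s.2.1, s.2.2.1 ++ y, s.2.2.2)

theorem src_ctx (x y : List A) (s : St A) : src (ctx x y s) = x ++ src s ++ y := by
  obtain ⟨a, r, b, c⟩ := s
  cases c <;> simp [src, ctx]
theorem tgt_ctx (x y : List A) (s : St A) : tgt (ctx x y s) = x ++ tgt s ++ y := by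
  obtain ⟨a, r, b, c⟩ := s
  cases c <;> simp [tgt, ctx]
theorem bar_ctx (x y : List A) (s : St A) : bar (ctx x y s) = ctx x y (bar s) := rfl

theorem Walk.ctx {a b : List A} {l : List (St A)} (h : Walk R a b l) (x y : List A) :
    Walk R (x ++ a ++ y) (x ++ b ++ y) (l.map (ctx x y)) := by
  induction l generalizing a with
  | nil => obtain rfl : a = b := h; exact rfl
  | cons s l ih =>
    obtain ⟨h1, h2, h3⟩ := h
    refine ⟨h1, ?_, ?_⟩
    · rw [src_ctx, h2]
    · rw [tgt_ctx]; exact ih h3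

theorem Eqv.ctx {a b : List A} (h : Eqv R a b) (x y : List A) :
    Eqv R (x ++ a ++ y) (x ++ b ++ y) := by
  obtain ⟨l, hl⟩ := h
  exact ⟨_, hl.ctx x y⟩

theorem eqv_step {s : St A} (h : s.2.1 ∈ R) : Eqv R (src s) (tgt s) := ⟨[s], walk_singleton h⟩

theorem eqv_cell {r : List A × List A} (h : r ∈ R) (b : Bool) (x y : List A) :
    Eqv R (x ++ inn r b ++ y) (x ++ out r b ++ y) := eqv_step (s := (x, r, y, b)) h

open Classical in
/-- chosen base walks -/
noncomputable def gam (R : Set (List A × List A)) (w a : List A) : List (St A) :=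
  if a = w then [] else if h : Eqv R w a then h.choose else []

theorem gam_self : gam R w w = [] := if_pos rfl

theorem gam_walk {a : List A} (h : Eqv R w a) : Walk R w a (gam R w a) := by
  unfold gam
  split_ifs with h1
  · subst h1; exact rfl
  · exact h.choose_spec

/-- value of a step -/
noncomputable def ep (R : Set (List A × List A)) (w : List A) (s : St A) : D R w :=
  E R w (gam R w) (src s) (tgt s) [s]

/-- value of a list of steps -/
noncomputable def val (R : Set (List A × List A)) (w : List A) (l : List (St A)) : D R w :=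
  (l.map (ep R w)).prod

@[simp] theorem val_nil : val R w [] = 1 := rfl
@[simp] theorem val_cons (s : St A) (l : List (St A)) : val R w (s :: l) = ep R w s * val R w l := by
  simp [val]
@[simp] theorem val_append (l m : List (St A)) : val R w (l ++ m) = val R w l * val R w m := by
  simp [val]

theorem E_val {a b : List A} {l : List (St A)} (h : Walk R a b l) (ha : Eqv R w a) :
    E R w (gam R w) a b l = val R w l := by
  induction l generalizing a with
  | nil =>
    obtain rfl : a = b := h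
    exact E_nil (gam_walk ha)
  | cons s l ih =>
    obtain ⟨h1, h2, h3⟩ := h
    subst h2
    have h4 : Eqv R w (tgt s) := ha.trans (eqv_step h1)
    have h5 : Eqv R w b := h4.trans ⟨l, h3⟩
    rw [val_cons, ← ih h3 h4]
    exact E_mul (gam_walk ha) (gam_walk h4) (gam_walk h5) (walk_singleton h1) h3

theorem cls_val {l : List (St A)} (h : Walk R w w l) : cls R w l = val R w l := by
  rw [← E_val h (Eqv.refl w)]
  unfold E
  rw [gam_self]
  simp

theorem ep_bar {s : St A} (h : s.2.1 ∈ R) (hc : Eqv R w (src s)) :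
    ep R w (bar s) = (ep R w s)⁻¹ := by
  unfold ep
  rw [src_bar, tgt_bar]
  exact E_bar (gam_walk hc) (gam_walk (hc.trans (eqv_step h))) (walk_singleton h)

theorem val_rv {a b : List A} {l : List (St A)} (h : Walk R a b l) (ha : Eqv R w a) :
    val R w (rv l) = (val R w l)⁻¹ := by
  induction l generalizing a with
  | nil => simp
  | cons s l ih =>
    obtain ⟨h1, h2, h3⟩ := h
    subst h2
    rw [rv_cons, val_append, ih h3 (ha.trans (eqv_step h1)), val_cons, val_nil, mul_one,
      ep_bar h1 ha, val_cons, mul_inv_rev]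

theorem ep_flip_tt {x y z : List A} {r₁ r₂ : List A × List A} (h1 : r₁ ∈ R) (h2 : r₂ ∈ R)
    (hc : Eqv R w (x ++ r₁.1 ++ y ++ r₂.1 ++ z)) :
    ep R w (x, r₁, y ++ r₂.1 ++ z, true) * ep R w (x ++ r₁.2 ++ y, r₂, z, true) =
      ep R w (x ++ r₁.1 ++ y, r₂, z, true) * ep R w (x, r₁, y ++ r₂.2 ++ z, true) := by
  have e1 : x ++ r₁.1 ++ y ++ r₂.1 ++ z = x ++ r₁.1 ++ (y ++ r₂.1 ++ z) := by simp
  have w1 : Walk R (x ++ r₁.1 ++ y ++ r₂.1 ++ z) (x ++ r₁.2 ++ y ++ r₂.2 ++ z)
      [(x, r₁, y ++ r₂.1 ++ z, true), (x ++ r₁.2 ++ y, r₂, z, true)] :=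
    ⟨h1, by simp [src], h2, by simp [src, tgt], by simp [tgt]⟩
  have w2 : Walk R (x ++ r₁.1 ++ y ++ r₂.1 ++ z) (x ++ r₁.2 ++ y ++ r₂.2 ++ z)
      [(x ++ r₁.1 ++ y, r₂, z, true), (x, r₁, y ++ r₂.2 ++ z, true)] :=
    ⟨h2, by simp [src], h1, by simp [src, tgt], by simp [tgt]⟩
  have h3 : Eqv R w (x ++ r₁.2 ++ y ++ r₂.2 ++ z) := hc.trans ⟨_, w1⟩
  have h4 : mv R [(x, r₁, y ++ r₂.1 ++ z, true), (x ++ r₁.2 ++ y, r₂, z, true)]
      [(x ++ r₁.1 ++ y, r₂, z, true), (x, r₁, y ++ r₂.2 ++ z, true)] := by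
    refine ⟨w1.path, w2.path, Or.inr ⟨[], [], x, r₁.1, r₁.2, y, r₂.1, r₂.2, z, by simp, by simp⟩⟩
  have h5 := E_mv (gam_walk hc) (gam_walk h3) w1 w2 h4
  rw [E_val w1 hc, E_val w2 hc] at h5
  simpa using h5

/-- exchange of independent steps -/
theorem ep_flip {x y z : List A} {r₁ r₂ : List A × List A} (h1 : r₁ ∈ R) (h2 : r₂ ∈ R)
    (b₁ b₂ : Bool) (hc : Eqv R w (x ++ inn r₁ b₁ ++ y ++ inn r₂ b₂ ++ z)) :
    ep R w (x, r₁, y ++ inn r₂ b₂ ++ z, b₁) * ep R w (x ++ out r₁ b₁ ++ y, r₂, z, b₂) =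
      ep R w (x ++ inn r₁ b₁ ++ y, r₂, z, b₂) * ep R w (x, r₁, y ++ out r₂ b₂ ++ z, b₁) := by
  -- the four corners
  have c1 : Eqv R (x ++ inn r₁ b₁ ++ y ++ inn r₂ b₂ ++ z) (x ++ out r₁ b₁ ++ y ++ inn r₂ b₂ ++ z) := by
    have := eqv_cell h1 b₁ x (y ++ inn r₂ b₂ ++ z)
    simpa using this
  have c2 : Eqv R (x ++ inn r₁ b₁ ++ y ++ inn r₂ b₂ ++ z) (x ++ inn r₁ b₁ ++ y ++ out r₂ b₂ ++ z) := by
    have := eqv_cell h2 b₂ (x ++ inn r₁ b₁ ++ y) z
    simpa using this
  have c3 : Eqv R (x ++ inn r₁ b₁ ++ y ++ out r₂ b₂ ++ z) (x ++ out r₁ b₁ ++ y ++ out r₂ b₂ ++ z) := by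
    have := eqv_cell h1 b₁ x (y ++ out r₂ b₂ ++ z)
    simpa using this
  have hb : ∀ (u : List A) (r : List A × List A) (v : List A), r ∈ R → Eqv R w (u ++ r.1 ++ v) →
      ep R w (u, r, v, false) = (ep R w (u, r, v, true))⁻¹ := by
    intro u r v hr hu
    exact ep_bar (s := (u, r, v, true)) hr hu
  have d1 := hc.trans c1
  have d2 := hc.trans c2
  have d3 := d2.trans c3
  cases b₁ <;> cases b₂ <;> simp only [inn, out, if_true, if_false, Bool.false_eq_true] at hc d1 d2 d3 ⊢
  · have key := ep_flip_tt (x := x) (y := y) (z := z) h1 h2 (w := w) (by simpa using d3)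
    rw [hb _ _ _ h1 (by simpa using d1), hb _ _ _ h2 (by simpa using d3),
      hb _ _ _ h2 (by simpa using d2), hb _ _ _ h1 (by simpa using d3)]
    rw [← mul_inv_rev, ← mul_inv_rev, key]
  · have key := ep_flip_tt (x := x) (y := y) (z := z) h1 h2 (w := w) (by simpa using d1)
    rw [hb _ _ _ h1 (by simpa using d1), hb _ _ _ h1 (by simpa using d3)]
    rw [inv_mul_eq_iff_eq_mul, ← mul_assoc, eq_mul_inv_iff_mul_eq, key]
  · have key := ep_flip_tt (x := x) (y := y) (z := z) h1 h2 (w := w) (by simpa using d2)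
    rw [hb _ _ _ h2 (by simpa using d3), hb _ _ _ h2 (by simpa using d2)]
    rw [mul_inv_eq_iff_eq_mul, mul_assoc, eq_inv_mul_iff_mul_eq, key]
  · exact ep_flip_tt h1 h2 (by simpa using hc)

end Pool.Agent.H599R3
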