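import Pool.Agent.H599R3.Hv

/-!
# Leftmost-first normal form of walks; uniqueness of reduced diagrams
-/

set_option autoImplicit false

namespace Pool.Agent.H599R3

variable {A : Type}

/-- kind-wise top length (at least one) -/
def pp (c : (List A × List A) × Bool) : ℕ := max 1 (inn c.1 c.2).length
/-- inverse kind -/
def iv (c : (List A × List A) × Bool) : (List A × List A) × Bool := (c.1, !c.2)
/-- position and kind of a step -/
def pos (s : St A) : ℕ × ((List A × List A) × Bool) := (s.1.length, (s.2.1, s.2.2.2))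

theorem hpp : ∀ c : (List A × List A) × Bool, 1 ≤ pp c := fun _ => le_max_left _ _
theorem hiv : ∀ c : (List A × List A) × Bool, iv (iv c) = c := by
  rintro ⟨r, b⟩; simp [iv]

variable {R : Set (List A × List A)} {w : List A}

/-- equality modulo the relations as a setoid -/
def eqvSetoid (R : Set (List A × List A)) : Setoid (List A) :=
  ⟨Eqv R, ⟨Eqv.refl, Eqv.symm, Eqv.trans⟩⟩

/-- representative of the class of a word -/
noncomputable def rep (R : Set (List A × List A)) (a : List A) : List A :=
  (Quotient.mk (eqvSetoid R) a).out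

theorem rep_eqv (a : List A) : Eqv R (rep R a) a :=
  Quotient.exact (s := eqvSetoid R) (Quotient.out_eq _)

theorem rep_eq {a b : List A} (h : Eqv R a b) : rep R a = rep R b := by
  unfold rep
  rw [Quotient.sound (s := eqvSetoid R) h]

theorem rep_rep (a : List A) : rep R (rep R a) = rep R a := rep_eq (rep_eqv a)

/-- type of a step: classes of the contexts, relation, direction -/
noncomputable def typ (R : Set (List A × List A)) (s : St A) : St A :=
  (rep R s.1, s.2.1, rep R s.2.2.1, s.2.2.2)

theorem Flip.ctxt {l m : List (St A)} (h : Flip l m) (p q : List (St A)) :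
    Flip (p ++ l ++ q) (p ++ m ++ q) := by
  obtain ⟨a, b, x, y, z, r₁, r₂, b₁, b₂, rfl, rfl⟩ := h
  exact ⟨p ++ a, b ++ q, x, y, z, r₁, r₂, b₁, b₂, by simp, by simp⟩

theorem Same.ctxt {l m : List (St A)} (h : Same l m) (p q : List (St A)) :
    Same (p ++ l ++ q) (p ++ m ++ q) := by
  unfold Same at h ⊢
  induction h with
  | rel _ _ h => exact .rel _ _ (h.ctxt p q)
  | refl _ => exact .refl _
  | symm _ _ _ ih => exact ih.symm
  | trans _ _ _ _ _ ih1 ih2 => exact ih1.trans _ _ _ ih2

theorem Same.cons {l m : List (St A)} (h : Same l m) (s : St A) : Same (s :: l) (s :: m) := by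
  have := h.ctxt [s] []
  simpa using this

theorem Same.refl (l : List (St A)) : Same l l := Relation.EqvGen.refl _
theorem Same.symm {l m : List (St A)} (h : Same l m) : Same m l := Relation.EqvGen.symm _ _ h
theorem Same.trans {l m n : List (St A)} (h : Same l m) (h' : Same m n) : Same l n :=
  Relation.EqvGen.trans _ _ _ h h'

theorem Same.length {l m : List (St A)} (h : Same l m) : l.length = m.length := by
  unfold Same at h
  induction h with
  | rel _ _ h =>
    obtain ⟨a, b, x, y, z, r₁, r₂, b₁, b₂, rfl, rfl⟩ := h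
    simp
  | refl _ => rfl
  | symm _ _ _ ih => exact ih.symm
  | trans _ _ _ _ _ ih1 ih2 => exact ih1.trans ih2

theorem Flip.walk {a b : List A} {l m : List (St A)} (h : Flip l m) : Walk R a b l ↔ Walk R a b m := by
  obtain ⟨p, q, x, y, z, r₁, r₂, b₁, b₂, rfl, rfl⟩ := h
  rw [walk_append, walk_append]
  simp only [walk_append, walk_cons, walk_nil, src_def, tgt_def]
  constructor
  · rintro ⟨c, ⟨d, h1, h2, h3, h4, h5, h6⟩, h7⟩
    refine ⟨c, ⟨d, h1, h4, ?_, h2, ?_, ?_⟩, h7⟩
    · rw [← h3]; simp
    · simp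
    · rw [← h6]; simp
  · rintro ⟨c, ⟨d, h1, h2, h3, h4, h5, h6⟩, h7⟩
    refine ⟨c, ⟨d, h1, h4, ?_, h2, ?_, ?_⟩, h7⟩
    · rw [← h3]; simp
    · simp
    · rw [← h6]; simp

theorem Same.walk {a b : List A} {l m : List (St A)} (h : Same l m) : Walk R a b l ↔ Walk R a b m := by
  unfold Same at h
  induction h with
  | rel _ _ h => exact h.walk
  | refl _ => exact Iff.rfl
  | symm _ _ _ ih => exact ih.symm
  | trans _ _ _ _ _ ih1 ih2 => exact ih1.trans ih2

theorem Walk.mem {a b : List A} {l : List (St A)} (h : Walk R a b l) : ∀ s ∈ l, s.2.1 ∈ R :=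
  h.path.1

theorem pp_of {r : List A × List A} (hR : ∀ r ∈ R, r.1 ≠ [] ∧ r.2 ≠ []) (h : r ∈ R) (b : Bool) :
    pp (r, b) = (inn r b).length := by
  have := hR r h
  unfold pp
  apply max_eq_right
  rw [Nat.one_le_iff_ne_zero]
  cases b
  · simpa [inn] using this.2
  · simpa [inn] using this.1

theorem nf_flip (hR : ∀ r ∈ R, r.1 ≠ [] ∧ r.2 ≠ []) {l m : List (St A)} (h : Flip l m)
    (hm : ∀ s ∈ l, s.2.1 ∈ R) :
    Nf.nf pp iv (l.map pos) = Nf.nf pp iv (m.map pos) := by
  obtain ⟨a, b, x, y, z, r₁, r₂, b₁, b₂, rfl, rfl⟩ := h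
  have h1 : r₁ ∈ R := hm (x, r₁, y ++ inn r₂ b₂ ++ z, b₁) (by simp)
  have h2 : r₂ ∈ R := hm (x ++ out r₁ b₁ ++ y, r₂, z, b₂) (by simp)
  have e1 : pp (r₁, b₁) = (inn r₁ b₁).length := pp_of hR h1 b₁
  have e2 : pp (iv (r₁, b₁)) = (out r₁ b₁).length := by
    show pp (r₁, !b₁) = _
    rw [pp_of hR h1, inn_not]
  have := Nf.nf_swap hpp hiv (a.map pos) (b.map pos) (x.length + (inn r₁ b₁).length + y.length)
    x.length (r₂, b₂) (r₁, b₁) (by rw [e1]; omega)
  have e3 : x.length + (inn r₁ b₁).length + y.length + pp (iv (r₁, b₁)) - pp (r₁, b₁) =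
      x.length + (out r₁ b₁).length + y.length := by rw [e1, e2]; omega
  rw [e3] at this
  simp only [List.map_append, List.map_cons, List.map_nil, pos, List.length_append]
  exact this.symm

theorem Same.nf (hR : ∀ r ∈ R, r.1 ≠ [] ∧ r.2 ≠ []) {a b : List A} {l m : List (St A)}
    (h : Same l m) (hm : Walk R a b l) :
    Nf.nf pp iv (l.map pos) = Nf.nf pp iv (m.map pos) := by
  unfold Same at h
  induction h with
  | rel _ _ h => exact nf_flip hR h hm.mem
  | refl _ => rfl
  | symm x y h ih => exact (ih ((Same.walk h).2 hm)).symm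
  | trans _ _ _ h1 h2 ih1 ih2 => exact (ih1 hm).trans (ih2 ((Same.walk h1).1 hm))

theorem nf_mv (hR : ∀ r ∈ R, r.1 ≠ [] ∧ r.2 ≠ []) {l m : List (St A)} (h : mv R l m) :
    Nf.nf pp iv (l.map pos) = Nf.nf pp iv (m.map pos) := by
  obtain ⟨h1, h2, h3⟩ := h
  rcases h3 with ⟨p, q, x, u, v, y, c, rfl, rfl⟩ | ⟨p, q, x, u₁, v₁, y, u₂, v₂, z, rfl, rfl⟩
  · have := Nf.nf_cancel hpp hiv (p.map pos) (q.map pos) x.length ((u, v), c)
    simp only [List.map_append, List.map_cons, List.map_nil, pos] at this ⊢
    exact this.symm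
  · apply nf_flip hR _ h1.1
    exact ⟨p, q, x, y, z, (u₁, v₁), (u₂, v₂), true, true, by simp [inn, out], by simp [inn, out]⟩

theorem nf_cls (hR : ∀ r ∈ R, r.1 ≠ [] ∧ r.2 ≠ []) {l m : List (St A)} (hl : Walk R w w l)
    (hm : Walk R w w m) (h : cls R w l = cls R w m) :
    Nf.nf pp iv (l.map pos) = Nf.nf pp iv (m.map pos) := by
  have h1 := Quot.eqvGen_exact (quot_of_cls hl hm h)
  clear h hl hm
  induction h1 with
  | rel _ _ h => exact nf_mv hR h
  | refl _ => rfl
  | symm _ _ _ ih => exact ih.symm
  | trans _ _ _ _ _ ih1 ih2 => exact ih1.trans ih2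

theorem pos_inj {a b b' : List A} : ∀ {l l' : List (St A)}, Walk R a b l → Walk R a b' l' →
    l.map pos = l'.map pos → l = l' := by
  intro l
  induction l generalizing a with
  | nil =>
    intro l' _ _ h
    rcases l' with _ | ⟨s, l'⟩
    · rfl
    · simp at h
  | cons s l ih =>
    intro l' hl hl' h
    rcases l' with _ | ⟨s', l'⟩
    · simp at h
    · simp only [List.map_cons, List.cons.injEq] at h
      obtain ⟨h1, h2⟩ := h
      obtain ⟨x, r, y, c⟩ := s
      obtain ⟨x', r', y', c'⟩ := s'
      simp only [pos, Prod.mk.injEq] at h1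
      obtain ⟨h3, rfl, rfl⟩ := h1
      have h4 : src (x, r, y, c) = src (x', r, y', c) := hl.2.1.trans hl'.2.1.symm
      simp only [src_def, List.append_assoc] at h4
      obtain ⟨rfl, h5⟩ := List.append_inj h4 h3
      have h6 := List.append_cancel_left h5
      subst h6
      rw [ih hl.2.2 hl'.2.2 h2]

/-- realisation of `push` -/
theorem push_real (hR : ∀ r ∈ R, r.1 ≠ [] ∧ r.2 ≠ []) : ∀ (l : List (St A)) (s : St A)
    (a b : List A), Walk R a b (s :: l) → Eqv R w a →
    ∃ l', Walk R a b l' ∧ l'.map pos = Nf.push pp iv (pos s).1 (pos s).2 (l.map pos) ∧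
      val R w l' = val R w (s :: l) ∧ (∀ t ∈ l', typ R t ∈ (s :: l).map (typ R)) ∧
      (Same (s :: l) l' ∨ ∃ m, Same (s :: l) m ∧ HasDipole m) := by
  intro l
  induction l with
  | nil =>
    intro s a b h ha
    exact ⟨[s], h, rfl, rfl, fun t ht => List.mem_map_of_mem ht, Or.inl (Same.refl _)⟩
  | cons t l ih =>
    intro s a b h ha
    obtain ⟨h1, h2, h3, h4, h5⟩ := h
    obtain ⟨xs, rs, ys, cs⟩ := s
    obtain ⟨xt, rt, yt, ct⟩ := t
    simp only at h1 h3
    simp only [src_def, tgt_def] at h2 h4
    by_cases hc : pos (xt, rt, yt, ct) = ((pos (xs, rs, ys, cs)).1, iv (pos (xs, rs, ys, cs)).2)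
    · -- cancellation
      have hc' := hc
      simp only [pos, iv, Prod.mk.injEq] at hc'
      obtain ⟨h6, rfl, rfl⟩ := hc'
      rw [inn_not, List.append_assoc, List.append_assoc] at h4
      obtain ⟨rfl, h7⟩ := List.append_inj h4 h6
      have h8 := List.append_cancel_left h7
      subst h8
      have ht : ((xt, rt, yt, !cs) : St A) = bar (xt, rt, yt, cs) := rfl
      refine ⟨l, ?_, ?_, ?_, ?_, Or.inr ⟨_, Same.refl _, [], l, (xt, rt, yt, cs), by simp [ht]⟩⟩
      · rw [ht, tgt_bar, src_def] at h5
        simp only at h5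
        rw [h2] at h5
        exact h5
      · rw [List.map_cons]
        simp only [Nf.push]
        rw [if_pos hc]
      · rw [val_cons, val_cons, ht, ep_bar h1 (by rw [src_def]; simp only; rw [h2]; exact ha)]
        simp
      · intro t ht
        exact List.mem_map_of_mem (List.mem_cons_of_mem _ (List.mem_cons_of_mem _ ht))
    · by_cases hd : (pos (xt, rt, yt, ct)).1 + pp (pos (xt, rt, yt, ct)).2 ≤ (pos (xs, rs, ys, cs)).1
      · -- exchange
        have hd' := hd
        simp only [pos] at hd'
        rw [pp_of hR h3] at hd'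
        obtain ⟨m, hm⟩ : ∃ m, xs = xt ++ inn rt ct ++ m := by
          have h6 : (xt ++ inn rt ct) ++ yt = xs ++ (out rs cs ++ ys) := by
            rw [h4]; simp
          rcases List.append_eq_append_iff.1 h6 with ⟨u, hu, _⟩ | ⟨u, hu, _⟩
          · exact ⟨u, hu⟩
          · have h7 := congrArg List.length hu
            simp only [List.length_append] at h7
            have h8 : u = [] := by
              apply List.eq_nil_of_length_eq_zero
              omega
            subst h8
            exact ⟨[], by simpa using hu.symm⟩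
        subst hm
        have hy : yt = m ++ out rs cs ++ ys := by
          have h6 : (xt ++ inn rt ct) ++ yt = (xt ++ inn rt ct) ++ (m ++ out rs cs ++ ys) := by
            rw [h4]; simp
          exact List.append_cancel_left h6
        subst hy
        have hflip : Flip ([(xt, rt, m ++ inn rs cs ++ ys, ct), (xt ++ out rt ct ++ m, rs, ys, cs)] ++ l)
            ([(xt ++ inn rt ct ++ m, rs, ys, cs), (xt, rt, m ++ out rs cs ++ ys, ct)] ++ l) :=
          ⟨[], l, xt, m, ys, rt, rs, ct, cs, by simp, by simp⟩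
        have hW : Walk R (tgt (xt, rt, m ++ inn rs cs ++ ys, ct)) b ((xt ++ out rt ct ++ m, rs, ys, cs) :: l) := by
          refine ⟨h1, ?_, ?_⟩
          · simp [src_def, tgt_def]
          · have e : tgt (xt ++ out rt ct ++ m, rs, ys, cs) = tgt (xt, rt, m ++ out rs cs ++ ys, ct) := by
              simp [tgt_def]
            rw [e]; exact h5
        have hcn : Eqv R w (tgt (xt, rt, m ++ inn rs cs ++ ys, ct)) := by
          have e5 : src (xt, rt, m ++ inn rs cs ++ ys, ct) = a := by rw [← h2, src_def]; simp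
          rw [← e5] at ha
          exact Eqv.trans ha (eqv_step (s := (xt, rt, m ++ inn rs cs ++ ys, ct)) h3)
        obtain ⟨l', i1, i2, i3, i4, i5⟩ := ih _ _ _ hW hcn
        refine ⟨(xt, rt, m ++ inn rs cs ++ ys, ct) :: l', ⟨h3, ?_, i1⟩, ?_, ?_, ?_, ?_⟩
        · rw [← h2, src_def]; simp
        · rw [List.map_cons, List.map_cons, i2]
          simp only [Nf.push]
          rw [if_neg hc, if_pos hd]
          have e3 : (pos (xt ++ out rt ct ++ m, rs, ys, cs)).1 =
              (pos (xt ++ inn rt ct ++ m, rs, ys, cs)).1 +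
                pp (iv (pos (xt, rt, m ++ out rs cs ++ ys, ct)).2) -
                pp (pos (xt, rt, m ++ out rs cs ++ ys, ct)).2 := by
            simp only [pos, List.length_append]
            have e2 : pp (iv (rt, ct)) = (out rt ct).length := by
              show pp (rt, !ct) = _
              rw [pp_of hR h3, inn_not]
            rw [e2, pp_of hR h3]
            omega
          rw [← e3]
          rfl
        · rw [val_cons, i3, val_cons, val_cons, val_cons, ← mul_assoc, ← mul_assoc]
          congr 1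
          apply ep_flip h3 h1
          rw [← h2] at ha
          exact ha
        · have ty1 : typ R (xt, rt, m ++ inn rs cs ++ ys, ct) = typ R (xt, rt, m ++ out rs cs ++ ys, ct) := by
            simp only [typ]
            rw [rep_eq (eqv_cell h1 cs m ys)]
          have ty2 : typ R (xt ++ out rt ct ++ m, rs, ys, cs) = typ R (xt ++ inn rt ct ++ m, rs, ys, cs) := by
            simp only [typ]
            rw [rep_eq (eqv_cell h3 ct xt m)]
          intro t ht
          rcases List.mem_cons.1 ht with rfl | ht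
          · rw [ty1]; simp
          · have := i4 t ht
            rw [List.map_cons, ty2] at this
            rw [List.map_cons, List.map_cons]
            rcases List.mem_cons.1 this with h | h
            · rw [h]; simp
            · exact List.mem_cons_of_mem _ (List.mem_cons_of_mem _ h)
        · have hs : Same ((xt ++ inn rt ct ++ m, rs, ys, cs) :: (xt, rt, m ++ out rs cs ++ ys, ct) :: l)
              ((xt, rt, m ++ inn rs cs ++ ys, ct) :: (xt ++ out rt ct ++ m, rs, ys, cs) :: l) :=
            (Relation.EqvGen.rel _ _ hflip).symm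
          rcases i5 with i5 | ⟨n, i5, i6⟩
          · exact Or.inl (hs.trans (i5.cons _))
          · refine Or.inr ⟨_, hs.trans (i5.cons _), ?_⟩
            obtain ⟨p, q, s, rfl⟩ := i6
            exact ⟨(xt, rt, m ++ inn rs cs ++ ys, ct) :: p, q, s, by simp⟩
      · refine ⟨(xs, rs, ys, cs) :: (xt, rt, yt, ct) :: l, ⟨h1, ?_, h3, ?_, h5⟩, ?_, rfl,
          fun t ht => List.mem_map_of_mem ht, Or.inl (Same.refl _)⟩
        · rw [src_def]; exact h2
        · rw [src_def, tgt_def]; exact h4
        · rw [List.map_cons, List.map_cons]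
          simp only [Nf.push]
          rw [if_neg hc, if_neg hd]

/-- realisation of the normal form -/
theorem nf_real (hR : ∀ r ∈ R, r.1 ≠ [] ∧ r.2 ≠ []) {b : List A} : ∀ (l : List (St A))
    (a : List A), Walk R a b l → Eqv R w a →
    ∃ l', Walk R a b l' ∧ l'.map pos = Nf.nf pp iv (l.map pos) ∧
      val R w l' = val R w l ∧ (∀ t ∈ l', typ R t ∈ l.map (typ R)) ∧
      (Same l l' ∨ ∃ m, Same l m ∧ HasDipole m) := by
  intro l
  induction l with
  | nil =>
    intro a h ha
    exact ⟨[], h, rfl, rfl, by simp, Or.inl (Same.refl _)⟩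
  | cons s l ih =>
    intro a h ha
    obtain ⟨h1, h2, h3⟩ := h
    subst h2
    obtain ⟨l₁, i1, i2, i3, i4, i5⟩ := ih (tgt s) h3 (ha.trans (eqv_step h1))
    obtain ⟨l₂, j1, j2, j3, j4, j5⟩ := push_real hR l₁ s (src s) b ⟨h1, rfl, i1⟩ ha
    refine ⟨l₂, j1, ?_, ?_, ?_, ?_⟩
    · rw [j2, i2]; rfl
    · rw [j3, val_cons, i3, val_cons]
    · intro t ht
      have := j4 t ht
      rw [List.map_cons] at this ⊢
      rcases List.mem_cons.1 this with h | h
      · rw [h]; simp
      · obtain ⟨t', ht', he⟩ := List.mem_map.1 h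
        rw [← he]
        exact List.mem_cons_of_mem _ (i4 t' ht')
    · have hdip : ∀ m, HasDipole m → HasDipole (s :: m) := by
        rintro m ⟨p, q, t, rfl⟩
        exact ⟨s :: p, q, t, by simp⟩
      rcases i5 with i5 | ⟨m, i5, i6⟩
      · rcases j5 with j5 | ⟨m, j5, j6⟩
        · exact Or.inl ((i5.cons s).trans j5)
        · exact Or.inr ⟨m, (i5.cons s).trans j5, j6⟩
      · exact Or.inr ⟨_, i5.cons s, hdip m i6⟩

/-- Every element is represented by a walk in leftmost-first order, unique, shortest, reduced. -/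
theorem exists_normal (hR : ∀ r ∈ R, r.1 ≠ [] ∧ r.2 ≠ []) (g : D R w) :
    ∃ z : List (St A), Walk R w w z ∧ cls R w z = g ∧ Nf.Nrm pp iv (z.map pos) ∧ Reduced z ∧
      ∀ l, Walk R w w l → cls R w l = g →
        (z.length ≤ l.length ∧ (∀ t ∈ z, typ R t ∈ l.map (typ R)) ∧ (Reduced l → Same l z)) := by
  have key : ∀ l, Walk R w w l → ∃ l', Walk R w w l' ∧ l'.map pos = Nf.nf pp iv (l.map pos) ∧
      cls R w l' = cls R w l ∧ (∀ t ∈ l', typ R t ∈ l.map (typ R)) ∧
      (Same l l' ∨ ∃ m, Same l m ∧ HasDipole m) := by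
    intro l hl
    obtain ⟨l', h1, h2, h3, h4, h5⟩ := nf_real hR l w hl (Eqv.refl w)
    exact ⟨l', h1, h2, by rw [cls_val h1, cls_val hl, h3], h4, h5⟩
  induction g using D_ind with
  | h l₀ hl₀ =>
    obtain ⟨z, z1, z2, z3, z4, z5⟩ := key l₀ hl₀
    have hn : Nf.Nrm pp iv (z.map pos) := by rw [z2]; exact Nf.nf_nrm hpp _
    refine ⟨z, z1, z3, hn, ?_, ?_⟩
    · rintro m hm ⟨p, q, s, rfl⟩
      have e1 := hm.nf hR z1
      rw [Nf.nf_of_nrm hn] at e1
      have e2 : (p ++ [s, bar s] ++ q).map pos = p.map pos ++ [((pos s).1, (pos s).2),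
          ((pos s).1, iv (pos s).2)] ++ q.map pos := by
        simp [pos, bar, iv]
      rw [e2, Nf.nf_cancel hpp hiv] at e1
      have e3 := congrArg List.length e1
      have e4 := Nf.length_nf (p := pp) (inv := iv) (p.map pos ++ q.map pos)
      have e5 := hm.length
      simp only [List.length_append, List.length_map, List.length_cons, List.length_nil] at e3 e4 e5
      omega
    · intro l hl hlg
      obtain ⟨z', y1, y2, y3, y4, y5⟩ := key l hl
      have e1 := nf_cls hR hl hl₀ hlg
      have e2 : z' = z := pos_inj y1 z1 (by rw [y2, z2, e1])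
      subst e2
      refine ⟨?_, y4, ?_⟩
      · have := congrArg List.length y2
        rw [List.length_map] at this
        rw [this]
        have := Nf.length_nf (p := pp) (inv := iv) (l.map pos)
        simpa using this
      · intro hr
        rcases y5 with h | ⟨m, h1, h2⟩
        · exact h
        · exact absurd h2 (hr m h1)

end Pool.Agent.H599R3
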