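import Mathlib
import Pool.Agent.H599R3.Ex2

/-!
# `Z wr Z` does not embed into the free-by-free group
-/

set_option autoImplicit false

open scoped commutatorElement

namespace Pool.Agent.H599R3

/-- the restricted wreath product `Z wr Z` -/
abbrev WZ : Type := SemidirectProduct (Multiplicative (ℤ →₀ ℤ)) (Multiplicative ℤ)
            (zpowersHom (MulAut (Multiplicative (ℤ →₀ ℤ)))
              (AddEquiv.toMultiplicative
                (Finsupp.domCongr (Equiv.addRight (1 : ℤ)) : (ℤ →₀ ℤ) ≃+ (ℤ →₀ ℤ))))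

theorem wz_right (a b : WZ) : (⁅a, b⁆ : WZ).right = 1 := by
  have h : (SemidirectProduct.rightHom ⁅a, b⁆ : Multiplicative ℤ) = 1 := by
    rw [map_commutatorElement, commutatorElement_eq_one_iff_mul_comm, mul_comm]
  exact h

theorem wz_inl {a : WZ} (h : a.right = 1) : a = SemidirectProduct.inl a.left := by
  apply SemidirectProduct.ext
  · simp
  · simpa using h

theorem wz_metab (a b c d : WZ) : ⁅⁅a, b⁆, ⁅c, d⁆⁆ = 1 := by
  rw [wz_inl (wz_right a b), wz_inl (wz_right c d), commutatorElement_eq_one_iff_mul_comm,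
    ← map_mul, ← map_mul, mul_comm]

/-- base elements -/
noncomputable def be (i : ℤ) : WZ :=
  SemidirectProduct.inl (Multiplicative.ofAdd (Finsupp.single i (1 : ℤ)))

/-- the shift -/
noncomputable def wt : WZ := SemidirectProduct.inr (Multiplicative.ofAdd (1 : ℤ))

theorem wt_be (i : ℤ) : wt * be i = be (i + 1) * wt := by
  unfold wt be
  have h := SemidirectProduct.inl_aut (φ := (zpowersHom (MulAut (Multiplicative (ℤ →₀ ℤ)))
              (AddEquiv.toMultiplicative
                (Finsupp.domCongr (Equiv.addRight (1 : ℤ)) : (ℤ →₀ ℤ) ≃+ (ℤ →₀ ℤ)))))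
    (Multiplicative.ofAdd (1 : ℤ)) (Multiplicative.ofAdd (Finsupp.single i (1 : ℤ)))
  have h2 : (zpowersHom (MulAut (Multiplicative (ℤ →₀ ℤ)))
              (AddEquiv.toMultiplicative
                (Finsupp.domCongr (Equiv.addRight (1 : ℤ)) : (ℤ →₀ ℤ) ≃+ (ℤ →₀ ℤ))))
      (Multiplicative.ofAdd (1 : ℤ)) (Multiplicative.ofAdd (Finsupp.single i (1 : ℤ))) =
      Multiplicative.ofAdd (Finsupp.single (i + 1) (1 : ℤ)) := by
    rw [zpowersHom_apply]
    show ((AddEquiv.toMultiplicative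
                (Finsupp.domCongr (Equiv.addRight (1 : ℤ)) : (ℤ →₀ ℤ) ≃+ (ℤ →₀ ℤ))) ^ (1 : ℤ))
        (Multiplicative.ofAdd (Finsupp.single i (1 : ℤ))) = _
    rw [zpow_one]
    show Multiplicative.ofAdd ((Finsupp.domCongr (Equiv.addRight (1 : ℤ)) : (ℤ →₀ ℤ) ≃+ (ℤ →₀ ℤ))
      (Finsupp.single i (1 : ℤ))) = _
    congr 1
    simp
  rw [h2] at h
  rw [h]
  simp

/-- the commutators used -/
noncomputable def wc (i : ℤ) : WZ := ⁅be i, wt⁆

/-- their base part -/
noncomputable def wv (i : ℤ) : Multiplicative (ℤ →₀ ℤ) :=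
  Multiplicative.ofAdd (Finsupp.single i (1 : ℤ) - Finsupp.single (i + 1) (1 : ℤ))

theorem wc_eq (i : ℤ) : wc i = SemidirectProduct.inl (wv i) := by
  unfold wc wv
  rw [commutatorElement_def]
  have h1 : be i * wt * (be i)⁻¹ * wt⁻¹ = be i * (wt * be i * wt⁻¹)⁻¹ := by group
  rw [h1, wt_be, mul_inv_cancel_right]
  unfold be
  rw [← map_inv, ← map_mul, ofAdd_sub, div_eq_mul_inv]

theorem no_wr (j : WZ →* GG) : ¬ Function.Injective j := by
  intro hj
  have hright : ∀ a b : WZ, (j ⁅a, b⁆).right = 1 := fun a b =>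
    metab_free ((SemidirectProduct.rightHom).comp j) wz_metab a b
  have h0 : j (wc 0) = SemidirectProduct.inl (j (wc 0)).left := by
    apply SemidirectProduct.ext
    · simp
    · exact hright (be 0) wt
  have h1 : j (wc 1) = SemidirectProduct.inl (j (wc 1)).left := by
    apply SemidirectProduct.ext
    · simp
    · exact hright (be 1) wt
  have hc : wc 0 * wc 1 = wc 1 * wc 0 := by
    rw [wc_eq, wc_eq, ← map_mul, ← map_mul, mul_comm]
  have hc' : (j (wc 0)).left * (j (wc 1)).left = (j (wc 1)).left * (j (wc 0)).left := by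
    apply SemidirectProduct.inl_injective (φ := aho)
    rw [map_mul, map_mul, ← h0, ← h1, ← map_mul, ← map_mul, hc]
  obtain ⟨z, m, n, hm, hn⟩ := comm_free _ _ hc'
  have h2 : wc 0 ^ n = wc 1 ^ m := by
    apply hj
    rw [map_zpow, map_zpow, h0, h1, hm, hn, ← map_zpow, ← map_zpow, ← zpow_mul, ← zpow_mul,
      mul_comm]
  rw [wc_eq, wc_eq, ← map_zpow, ← map_zpow] at h2
  have h3 : wv 0 ^ n = wv 1 ^ m := SemidirectProduct.inl_injective h2
  have h4 : n • (Finsupp.single (0 : ℤ) (1 : ℤ) - Finsupp.single (0 + 1) (1 : ℤ)) =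
      m • (Finsupp.single (1 : ℤ) (1 : ℤ) - Finsupp.single (1 + 1) (1 : ℤ)) := h3
  have h5 := DFunLike.congr_fun h4 2
  have h6 : m = 0 := by
    simpa [Finsupp.single_apply] using h5
  have h7 : (j (wc 0)).left = 1 := by rw [hm, h6, zpow_zero]
  have h8 : wc 0 = 1 := by
    apply hj
    rw [h0, h7, map_one, map_one]
  rw [wc_eq] at h8
  have h9 : wv 0 = 1 :=
    SemidirectProduct.inl_injective (h8.trans (map_one SemidirectProduct.inl).symm)
  have h10 : (Finsupp.single (0 : ℤ) (1 : ℤ) - Finsupp.single (0 + 1) (1 : ℤ)) = 0 := h9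
  have h11 := DFunLike.congr_fun h10 0
  simp [Finsupp.single_apply] at h11

end Pool.Agent.H599R3
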